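import Pool.Agent.Helper90.ZP.Dom

/-!
# Almost all tuples of zeta values
-/

set_option autoImplicit false

namespace Pool.Agent.Helper90.ZP

open Finset Filter Topology Pool.Agent.Y760.PZ

/-- **no resonances**: the largest term dominates, coefficients at most `exp h` -/
theorem dominate_h {ι : Type} [Fintype ι] (θ : ι → ℝ) (hθ : LM θ) (k d : ℕ) :
    ∃ A₁ A₂ : ℝ, 0 < A₁ ∧ 0 < A₂ ∧ ∀ h : ℝ, 1 ≤ h → ∀ s : Fin k → ℕ, (∀ i, 2 ≤ s i) →
      (∀ u : Fin k → ℤ, u ≠ 0 → (∀ i, |u i| ≤ d) → A₁ * h ≤ |∑ i, (u i : ℝ) * s i|) →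
      ∀ a : (Fin k → Fin (d + 1)) → ι → ℤ, a ≠ 0 → (∀ e j, |(a e j : ℝ)| ≤ Real.exp h) →
      Real.exp (-(A₂ * (h + ∑ i, (s i : ℝ)))) <
        |∑ e : Fin k → Fin (d + 1), (∑ j, (a e j : ℝ) * θ j) *
          ∏ i, (zt (s i)) ^ ((e i : Fin (d + 1)) : ℕ)| := by
  classical
  obtain ⟨κ, c, hκ, hc, hmeas⟩ := hθ
  set M0 : ℝ := ((d : ℝ) + 1) ^ k * ((2 : ℝ) ^ d) ^ k with hM0
  have hM01 : 1 ≤ M0 := by
    have h1 : (1 : ℝ) ≤ ((d : ℝ) + 1) ^ k := one_le_pow₀ (by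
      have : (0 : ℝ) ≤ d := Nat.cast_nonneg d
      linarith)
    have h2 : (1 : ℝ) ≤ ((2 : ℝ) ^ d) ^ k := one_le_pow₀ (one_le_pow₀ (by norm_num))
    exact one_le_mul_of_one_le_of_one_le h1 h2
  have hM00 : (0 : ℝ) < M0 := by linarith
  set S : ℝ := ∑ j : ι, |θ j| with hS
  have hS0 : 0 ≤ S := sum_nonneg fun j _ => abs_nonneg _
  set c1 : ℝ := c / M0 ^ κ with hc1
  have hc10 : 0 < c1 := div_pos hc (Real.rpow_pos_of_pos hM00 κ)
  set R : ℝ := ((d : ℝ) + 1) ^ k * (M0 * S * ((4 : ℝ) ^ d) ^ k) with hR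
  have hR0 : 0 ≤ R := by positivity
  -- constants
  obtain ⟨a1, ha1, ha1R⟩ : ∃ a1 : ℝ, 0 ≤ a1 ∧ 2 * R / c1 ≤ Real.exp a1 := by
    refine ⟨2 * R / c1, by positivity, ?_⟩
    have := Real.add_one_le_exp (2 * R / c1)
    linarith
  obtain ⟨a2, ha2, ha2R⟩ : ∃ a2 : ℝ, 0 ≤ a2 ∧ 2 / c1 < Real.exp a2 := by
    refine ⟨2 / c1, by positivity, ?_⟩
    have := Real.add_one_le_exp (2 / c1)
    linarith
  have hl2 : 0 < Real.log 2 := Real.log_pos (by norm_num)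
  set A₁ : ℝ := (1 + κ + a1) / Real.log 2 with hA1
  set A₂ : ℝ := κ + a2 + d * Real.log 2 + 1 with hA2
  refine ⟨A₁, A₂, by positivity, by positivity, fun h hh s hs2 hres a ha haC => ?_⟩
  set X : ℝ := Real.exp h with hX
  have hX0 : 0 < X := Real.exp_pos h
  have hX1 : 1 ≤ X := Real.one_le_exp (by linarith)
  -- translate
  have hT : ∑ e : Fin k → Fin (d + 1), (∑ j, (a e j : ℝ) * θ j) *
        ∏ i, (zt (s i)) ^ ((e i : Fin (d + 1)) : ℕ) =
      ∑ f : Fin k → Fin (d + 1), (∑ j, (bc a f j : ℝ) * θ j) *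
        ∏ i, (zt (s i) - 1) ^ ((f i : Fin (d + 1)) : ℕ) := by
    rw [← sum_translate]
    simp only [add_sub_cancel]
  rw [hT]
  -- the smallest weight
  obtain ⟨g, j0, hg⟩ := bc_ne a ha
  obtain ⟨f0, hf0, hmin⟩ := exists_min_image (univ.filter fun f => bc a f ≠ 0)
    (fun f : Fin k → Fin (d + 1) => wt s f)
    ⟨g, by rw [mem_filter]; exact ⟨mem_univ _, fun h => hg (congrFun h j0)⟩⟩
  rw [mem_filter] at hf0
  set w0 : ℕ := wt s f0 with hw0
  -- gap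
  have hgap : ∀ f, bc a f ≠ 0 → f ≠ f0 → (w0 : ℝ) + A₁ * h ≤ wt s f := by
    intro f hf hne
    have h1 := hmin f (by rw [mem_filter]; exact ⟨mem_univ _, hf⟩)
    have h2 := hres (fun i => ((f i : ℕ) : ℤ) - ((f0 i : ℕ) : ℤ)) (by
      intro h0
      apply hne
      funext i
      have h3 := congrFun h0 i
      simp only [Pi.zero_apply] at h3
      exact Fin.ext (by omega)) (fun i => by
        have h3 := (f i).2
        have h4 := (f0 i).2
        rw [abs_le]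
        constructor <;> omega)
    have h3 : ∑ i, ((((f i : ℕ) : ℤ) - ((f0 i : ℕ) : ℤ) : ℤ) : ℝ) * (s i : ℝ) =
        (wt s f : ℝ) - w0 := by
      rw [hw0, wt, wt]
      push_cast
      rw [← sum_sub_distrib]
      exact sum_congr rfl fun i _ => by ring
    rw [h3] at h2
    have h4 : (w0 : ℝ) ≤ wt s f := by exact_mod_cast h1
    rw [abs_of_nonneg (by linarith)] at h2
    linarith
  -- the main term
  have hbX : ∀ f j, |(bc a f j : ℝ)| ≤ M0 * X := fun f j => bc_le a hX0.le haC f j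
  have hmain : c1 / X ^ κ ≤ |∑ j, (bc a f0 j : ℝ) * θ j| := by
    have h1 := hmeas (bc a f0) hf0.2 (M0 * X)
      (one_le_mul_of_one_le_of_one_le hM01 hX1) (hbX f0)
    rw [Real.mul_rpow hM00.le hX0.le] at h1
    rw [hc1, div_div, div_le_iff₀ (by positivity)]
    linarith
  set β : (Fin k → Fin (d + 1)) → ℝ := fun f => ∑ j, (bc a f j : ℝ) * θ j with hβ
  have hβX : ∀ f, |β f| ≤ M0 * S * X := by
    intro f
    rw [hβ]
    refine (abs_sum_le_sum_abs _ _).trans ?_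
    calc ∑ j, |(bc a f j : ℝ) * θ j| ≤ ∑ j, M0 * X * |θ j| := by
          refine sum_le_sum fun j _ => ?_
          rw [abs_mul]
          exact mul_le_mul_of_nonneg_right (hbX f j) (abs_nonneg _)
      _ = _ := by
        rw [← mul_sum, hS]
        ring
  have hw : (0 : ℝ) < 2 ^ w0 := by positivity
  -- the other terms
  have hoth : ∀ f, f ≠ f0 → |β f * ∏ i, (zt (s i) - 1) ^ ((f i : Fin (d + 1)) : ℕ)| ≤
      M0 * S * ((4 : ℝ) ^ d) ^ k * (X * ((2 : ℝ) ^ (A₁ * h))⁻¹) * (1 / (2 : ℝ) ^ w0) := by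
    intro f hne
    by_cases hf : bc a f = 0
    · have h1 : β f = 0 := by
        rw [hβ]
        simp [hf]
      rw [h1, zero_mul, abs_zero]
      positivity
    · have h1 := hgap f hf hne
      have h2 : (1 : ℝ) / 2 ^ wt s f ≤ ((2 : ℝ) ^ (A₁ * h))⁻¹ * (1 / (2 : ℝ) ^ w0) := by
        rw [← one_div, div_mul_div_comm, one_mul]
        refine one_div_le_one_div_of_le (by positivity) ?_
        rw [← Real.rpow_natCast 2 w0, ← Real.rpow_natCast 2 (wt s f),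
          ← Real.rpow_add (by norm_num)]
        exact Real.rpow_le_rpow_of_exponent_le (by norm_num) (by linarith)
      rw [abs_mul]
      calc |β f| * |∏ i, (zt (s i) - 1) ^ ((f i : Fin (d + 1)) : ℕ)| ≤
          (M0 * S * X) * (((4 : ℝ) ^ d) ^ k * (1 / (2 : ℝ) ^ wt s f)) :=
            mul_le_mul (hβX f) (prod_upper s hs2 f) (abs_nonneg _) (by positivity)
        _ ≤ (M0 * S * X) * (((4 : ℝ) ^ d) ^ k *
            (((2 : ℝ) ^ (A₁ * h))⁻¹ * (1 / (2 : ℝ) ^ w0))) := by gcongr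
        _ = _ := by ring
  have hsum : |∑ f ∈ univ.erase f0, β f * ∏ i, (zt (s i) - 1) ^ ((f i : Fin (d + 1)) : ℕ)| ≤
      R * (X * ((2 : ℝ) ^ (A₁ * h))⁻¹) * (1 / (2 : ℝ) ^ w0) := by
    refine (abs_sum_le_sum_abs _ _).trans ?_
    calc ∑ f ∈ univ.erase f0, |β f * ∏ i, (zt (s i) - 1) ^ ((f i : Fin (d + 1)) : ℕ)| ≤
        ∑ _f ∈ univ.erase f0,
          M0 * S * ((4 : ℝ) ^ d) ^ k * (X * ((2 : ℝ) ^ (A₁ * h))⁻¹) * (1 / (2 : ℝ) ^ w0) :=
          sum_le_sum fun f hf => hoth f (ne_of_mem_erase hf)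
      _ ≤ ∑ _f : Fin k → Fin (d + 1),
          M0 * S * ((4 : ℝ) ^ d) ^ k * (X * ((2 : ℝ) ^ (A₁ * h))⁻¹) * (1 / (2 : ℝ) ^ w0) :=
          sum_le_sum_of_subset_of_nonneg (erase_subset _ _) fun f _ _ => by positivity
      _ = _ := by
        rw [sum_const, card_univ, Fintype.card_fun, Fintype.card_fin, Fintype.card_fin,
          nsmul_eq_mul, hR]
        push_cast
        ring
  have hfirst : c1 / X ^ κ * (1 / (2 : ℝ) ^ w0) ≤
      |β f0 * ∏ i, (zt (s i) - 1) ^ ((f0 i : Fin (d + 1)) : ℕ)| := by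
    rw [abs_mul]
    have h2 := prod_lower s hs2 f0
    have h3 : (0 : ℝ) < 1 / 2 ^ w0 := by positivity
    rw [abs_of_nonneg (h3.le.trans h2)]
    exact mul_le_mul hmain h2 h3.le (abs_nonneg _)
  rw [← add_sum_erase _ _ (mem_univ f0)]
  have htri := abs_sub_abs_le_abs_add
    (β f0 * ∏ i, (zt (s i) - 1) ^ ((f0 i : Fin (d + 1)) : ℕ))
    (∑ f ∈ univ.erase f0, β f * ∏ i, (zt (s i) - 1) ^ ((f i : Fin (d + 1)) : ℕ))
  refine lt_of_lt_of_le ?_ htri
  refine lt_of_lt_of_le ?_ (sub_le_sub hfirst hsum)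
  -- numerical inequality
  have h2A : (2 : ℝ) ^ (A₁ * h) = Real.exp ((1 + κ + a1) * h) := by
    rw [Real.rpow_def_of_pos (by norm_num), hA1]
    congr 1
    field_simp
  have hXκ : X ^ κ = Real.exp (κ * h) := by
    rw [hX, ← Real.exp_mul, mul_comm]
  have h5 : R * (X * ((2 : ℝ) ^ (A₁ * h))⁻¹) ≤ c1 / X ^ κ / 2 := by
    rw [h2A, hXκ, hX, ← Real.exp_neg, ← Real.exp_add, div_right_comm, div_eq_mul_inv (c1 / 2),
      ← Real.exp_neg]
    have e1 : h + -((1 + κ + a1) * h) = -(a1 * h) + -(κ * h) := by ring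
    rw [e1, Real.exp_add, ← mul_assoc]
    refine mul_le_mul_of_nonneg_right ?_ (Real.exp_pos _).le
    rw [Real.exp_neg, ← div_eq_mul_inv, div_le_iff₀ (Real.exp_pos _)]
    rw [div_le_iff₀ hc10] at ha1R
    have e2 : Real.exp a1 ≤ Real.exp (a1 * h) := Real.exp_le_exp.2 (by nlinarith)
    nlinarith
  have h6 : c1 / X ^ κ / 2 * (1 / (2 : ℝ) ^ w0) ≤
      c1 / X ^ κ * (1 / (2 : ℝ) ^ w0) - R * (X * ((2 : ℝ) ^ (A₁ * h))⁻¹) * (1 / (2 : ℝ) ^ w0) := by
    have h7 : (0 : ℝ) < 1 / 2 ^ w0 := by positivity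
    nlinarith
  refine lt_of_lt_of_le ?_ h6
  have hw0s : w0 ≤ d * ∑ i, s i := by
    rw [hw0, wt, mul_sum]
    refine sum_le_sum fun i _ => Nat.mul_le_mul_right _ (by have := (f0 i).2; omega)
  have h8 : (2 : ℝ) ^ w0 ≤ Real.exp (d * Real.log 2 * ∑ i, (s i : ℝ)) := by
    rw [← Real.rpow_natCast, Real.rpow_def_of_pos (by norm_num), Real.exp_le_exp]
    have h9 : (w0 : ℝ) ≤ d * ∑ i, (s i : ℝ) := by exact_mod_cast hw0s
    nlinarith
  have hSg : (0 : ℝ) ≤ ∑ i, (s i : ℝ) := sum_nonneg fun i _ => Nat.cast_nonneg _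
  have h10 : Real.exp (-(a2 * h)) < c1 / 2 := by
    rw [Real.exp_neg, inv_lt_comm₀ (Real.exp_pos _) (by positivity)]
    have e2 : Real.exp a2 ≤ Real.exp (a2 * h) := Real.exp_le_exp.2 (by nlinarith)
    have e3 : (c1 / 2)⁻¹ = 2 / c1 := by rw [inv_div]
    rw [e3]
    linarith
  calc Real.exp (-(A₂ * (h + ∑ i, (s i : ℝ)))) ≤
      Real.exp (-(a2 * h)) * Real.exp (-(κ * h)) * Real.exp (-(d * Real.log 2 * ∑ i, (s i : ℝ))) := by
        rw [← Real.exp_add, ← Real.exp_add, Real.exp_le_exp, hA2]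
        have hdl : (0 : ℝ) ≤ d * Real.log 2 := by positivity
        have g1 : 0 ≤ d * Real.log 2 * h := by positivity
        have g2 : 0 ≤ (κ + a2 + 1) * ∑ i, (s i : ℝ) := by positivity
        nlinarith
    _ < c1 / 2 * Real.exp (-(κ * h)) * Real.exp (-(d * Real.log 2 * ∑ i, (s i : ℝ))) := by
        gcongr
    _ ≤ c1 / X ^ κ / 2 * (1 / (2 : ℝ) ^ w0) := by
        have g1 : c1 / X ^ κ / 2 = c1 / 2 * Real.exp (-(κ * h)) := by
          rw [hXκ, Real.exp_neg]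
          ring
        rw [g1]
        refine mul_le_mul_of_nonneg_left ?_ (by positivity)
        rw [one_div, Real.exp_neg]
        exact inv_anti₀ hw h8

/-- a set of natural numbers of small diameter -/
lemma card_diam (T : Finset ℕ) {L : ℝ} (hL : 0 ≤ L) (hT : ∀ x ∈ T, ∀ y ∈ T, (y : ℝ) - x < L) :
    (T.card : ℝ) ≤ L + 1 := by
  rcases T.eq_empty_or_nonempty with rfl | hne
  · simp
    linarith
  · obtain ⟨m, hm, hmin⟩ := exists_min_image T id hne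
    have hsub : T ⊆ Finset.Icc m (m + ⌊L⌋₊) := by
      intro y hy
      rw [mem_Icc]
      refine ⟨hmin y hy, ?_⟩
      have h1 := hT m hm y hy
      have h2 : m ≤ y := hmin y hy
      have h3 : ((y - m : ℕ) : ℝ) < L := by
        rw [Nat.cast_sub h2]
        exact h1
      have h4 : y - m ≤ ⌊L⌋₊ := Nat.le_floor h3.le
      omega
    have h1 := card_le_card hsub
    rw [Nat.card_Icc] at h1
    have h2 : T.card ≤ ⌊L⌋₊ + 1 := by omega
    have h3 : ((⌊L⌋₊ : ℕ) : ℝ) ≤ L := Nat.floor_le hL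
    have h4 : (T.card : ℝ) ≤ ((⌊L⌋₊ + 1 : ℕ) : ℝ) := by exact_mod_cast h2
    push_cast at h4
    linarith

/-- the box -/
def box (k N : ℕ) : Finset (Fin k → ℕ) := Fintype.piFinset fun _ => Finset.Icc 2 N

open Classical in
/-- tuples near a hyperplane -/
lemma card_hyper {k N : ℕ} (u : Fin k → ℤ) (hu : u ≠ 0) {H : ℝ} (hH : 0 ≤ H) :
    (((box k N).filter fun s => |∑ i, (u i : ℝ) * s i| < H).card : ℝ) ≤
      (2 * H + 1) * (N : ℝ) ^ (k - 1) := by
  obtain ⟨i0, hi0⟩ : ∃ i, u i ≠ 0 := by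
    by_contra h
    push Not at h
    exact hu (funext h)
  set T := (box k N).filter fun s => |∑ i, (u i : ℝ) * s i| < H with hT
  set g : (Fin k → ℕ) → (Fin k → ℕ) := fun s => Function.update s i0 0 with hg
  have himg : (T.image g).card ≤ N ^ (k - 1) := by
    have h1 : T.image g ⊆ Fintype.piFinset fun i => if i = i0 then {0} else Finset.Icc 2 N := by
      intro t ht
      obtain ⟨s, hs, rfl⟩ := mem_image.1 ht
      rw [Fintype.mem_piFinset]
      intro i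
      rw [hT, mem_filter, box, Fintype.mem_piFinset] at hs
      by_cases hi : i = i0
      · subst hi
        simp [hg]
      · simp only [hg, Function.update_of_ne hi, if_neg hi]
        exact hs.1 i
    refine (card_le_card h1).trans ?_
    rw [Fintype.card_piFinset]
    have h2 : ∀ i, (if i = i0 then ({0} : Finset ℕ) else Finset.Icc 2 N).card =
        if i = i0 then 1 else (N + 1 - 2) := by
      intro i
      split_ifs
      · simp
      · rw [Nat.card_Icc]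
    simp only [h2]
    rw [prod_ite, prod_const_one, one_mul, prod_const]
    have h3 : (univ.filter fun i : Fin k => ¬ i = i0).card = k - 1 := by
      rw [filter_not, filter_eq' univ i0, if_pos (mem_univ _), card_sdiff_of_subset
        (subset_univ _), card_univ, Fintype.card_fin, card_singleton]
    rw [h3]
    exact Nat.pow_le_pow_left (by omega) _
  -- fibres
  have hfib : ∀ t ∈ T.image g, ((T.filter fun s => g s = t).card : ℝ) ≤ 2 * H + 1 := by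
    intro t _
    have hinj : Set.InjOn (fun s : Fin k → ℕ => s i0) ((T.filter fun s => g s = t) : Set (Fin k → ℕ)) := by
      intro s hs s' hs' hss
      rw [mem_coe, mem_filter] at hs hs'
      funext i
      by_cases hi : i = i0
      · rw [hi]
        exact hss
      · have h1 : g s i = g s' i := by rw [hs.2, hs'.2]
        simpa only [hg, Function.update_of_ne hi] using h1
    rw [← card_image_of_injOn hinj]
    refine card_diam _ (by positivity) fun x hx y hy => ?_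
    obtain ⟨s, hs, rfl⟩ := mem_image.1 hx
    obtain ⟨s', hs', rfl⟩ := mem_image.1 hy
    rw [mem_filter, hT, mem_filter] at hs hs'
    have h1 : ∑ i, (u i : ℝ) * (s' i : ℝ) - ∑ i, (u i : ℝ) * (s i : ℝ) =
        u i0 * ((s' i0 : ℝ) - s i0) := by
      rw [← sum_sub_distrib, sum_eq_single i0]
      · ring
      · intro i _ hi
        have h2 : g s i = g s' i := by rw [hs.2, hs'.2]
        simp only [hg, Function.update_of_ne hi] at h2
        rw [h2]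
        ring
      · intro h
        exact absurd (mem_univ _) h
    have h2 : |(u i0 : ℝ) * ((s' i0 : ℝ) - s i0)| < 2 * H := by
      rw [← h1]
      have := abs_sub (∑ i, (u i : ℝ) * (s' i : ℝ)) (∑ i, (u i : ℝ) * (s i : ℝ))
      linarith [hs.1.2, hs'.1.2]
    have h3 : (1 : ℝ) ≤ |(u i0 : ℝ)| := by exact_mod_cast Int.one_le_abs hi0
    rw [abs_mul] at h2
    have h4 : |(s' i0 : ℝ) - s i0| ≤ |(u i0 : ℝ)| * |(s' i0 : ℝ) - s i0| :=
      le_mul_of_one_le_left (abs_nonneg _) h3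
    have h5 := le_abs_self ((s' i0 : ℝ) - s i0)
    show ((s' i0 : ℕ) : ℝ) - ((s i0 : ℕ) : ℝ) < 2 * H
    linarith
  have hnat : T.card ≤ ⌊2 * H + 1⌋₊ * (T.image g).card := by
    refine card_le_mul_card_image _ _ fun t ht => ?_
    exact Nat.le_floor (hfib t ht)
  have h1 : (T.card : ℝ) ≤ (⌊2 * H + 1⌋₊ : ℝ) * ((T.image g).card : ℝ) := by exact_mod_cast hnat
  have h2 : ((⌊2 * H + 1⌋₊ : ℕ) : ℝ) ≤ 2 * H + 1 := Nat.floor_le (by positivity)
  have h3 : ((T.image g).card : ℝ) ≤ (N : ℝ) ^ (k - 1) := by exact_mod_cast himg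
  calc (T.card : ℝ) ≤ (⌊2 * H + 1⌋₊ : ℝ) * ((T.image g).card : ℝ) := h1
    _ ≤ (2 * H + 1) * (N : ℝ) ^ (k - 1) := by gcongr

/-- **almost all tuples**, coefficients in the span of `θ` -/
theorem almost_v {ι : Type} [Fintype ι] (θ : ι → ℝ) (hθ : LM θ) (k d : ℕ) :
    ∃ A : ℝ, 0 < A ∧ ∀ (N : ℕ) (h : ℝ), 1 ≤ h →
      (Set.ncard {s : Fin k → ℕ | (∀ i, 2 ≤ s i ∧ s i ≤ N) ∧
        ∃ a : (Fin k → Fin (d + 1)) → ι → ℤ, a ≠ 0 ∧ (∀ e j, |(a e j : ℝ)| ≤ Real.exp h) ∧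
          |∑ e : Fin k → Fin (d + 1), (∑ j, (a e j : ℝ) * θ j) *
            ∏ i, (zt (s i)) ^ ((e i : Fin (d + 1)) : ℕ)| ≤
          Real.exp (-(A * (h + ∑ i, (s i : ℝ))))} : ℝ) ≤ A * h * (N : ℝ) ^ (k - 1) := by
  classical
  obtain ⟨A₁, A₂, hA₁, hA₂, hdom⟩ := dominate_h θ hθ k d
  set U : Finset (Fin k → ℤ) := (Fintype.piFinset fun _ => Finset.Icc (-(d : ℤ)) d).erase 0 with hU
  refine ⟨A₂ + (U.card : ℝ) * (2 * A₁ + 1), by positivity, fun N h hh => ?_⟩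
  set A : ℝ := A₂ + (U.card : ℝ) * (2 * A₁ + 1) with hA
  have hAA : A₂ ≤ A := by rw [hA]; linarith [(by positivity : (0 : ℝ) ≤ (U.card : ℝ) * (2 * A₁ + 1))]
  set T : Finset (Fin k → ℕ) :=
    U.biUnion fun u => (box k N).filter fun s => |∑ i, (u i : ℝ) * s i| < A₁ * h with hT
  have hsub : {s : Fin k → ℕ | (∀ i, 2 ≤ s i ∧ s i ≤ N) ∧
        ∃ a : (Fin k → Fin (d + 1)) → ι → ℤ, a ≠ 0 ∧ (∀ e j, |(a e j : ℝ)| ≤ Real.exp h) ∧
          |∑ e : Fin k → Fin (d + 1), (∑ j, (a e j : ℝ) * θ j) *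
            ∏ i, (zt (s i)) ^ ((e i : Fin (d + 1)) : ℕ)| ≤
          Real.exp (-(A * (h + ∑ i, (s i : ℝ))))} ⊆ (T : Set (Fin k → ℕ)) := by
    rintro s ⟨hs, a, ha, haC, hsmall⟩
    by_contra hcon
    have h1 := hdom h hh s (fun i => (hs i).1) (fun u hu hud => by
      by_contra hlt
      push Not at hlt
      apply hcon
      rw [mem_coe, hT, mem_biUnion]
      refine ⟨u, ?_, ?_⟩
      · rw [hU, mem_erase, Fintype.mem_piFinset]
        exact ⟨hu, fun i => by rw [mem_Icc]; exact abs_le.1 (hud i)⟩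
      · rw [mem_filter, box, Fintype.mem_piFinset]
        exact ⟨fun i => by rw [mem_Icc]; exact hs i, hlt⟩) a ha haC
    have hSg : (0 : ℝ) ≤ ∑ i, (s i : ℝ) := sum_nonneg fun i _ => Nat.cast_nonneg _
    have h2 : Real.exp (-(A * (h + ∑ i, (s i : ℝ)))) ≤ Real.exp (-(A₂ * (h + ∑ i, (s i : ℝ)))) := by
      rw [Real.exp_le_exp, neg_le_neg_iff]
      exact mul_le_mul_of_nonneg_right hAA (by linarith)
    linarith
  have h1 : Set.ncard {s : Fin k → ℕ | (∀ i, 2 ≤ s i ∧ s i ≤ N) ∧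
        ∃ a : (Fin k → Fin (d + 1)) → ι → ℤ, a ≠ 0 ∧ (∀ e j, |(a e j : ℝ)| ≤ Real.exp h) ∧
          |∑ e : Fin k → Fin (d + 1), (∑ j, (a e j : ℝ) * θ j) *
            ∏ i, (zt (s i)) ^ ((e i : Fin (d + 1)) : ℕ)| ≤
          Real.exp (-(A * (h + ∑ i, (s i : ℝ))))} ≤ T.card := by
    rw [← Set.ncard_coe_finset T]
    exact Set.ncard_le_ncard hsub (Finset.finite_toSet T)
  have h2 : (T.card : ℝ) ≤ ∑ u ∈ U, (2 * (A₁ * h) + 1) * (N : ℝ) ^ (k - 1) := by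
    have h3 : (T.card : ℝ) ≤ ∑ u ∈ U,
        (((box k N).filter fun s => |∑ i, (u i : ℝ) * s i| < A₁ * h).card : ℝ) := by
      rw [← Nat.cast_sum, Nat.cast_le, hT]
      exact card_biUnion_le
    refine h3.trans (sum_le_sum fun u hu => ?_)
    rw [hU, mem_erase] at hu
    exact card_hyper u hu.1 (by positivity)
  rw [sum_const, nsmul_eq_mul] at h2
  have hN : (0 : ℝ) ≤ (N : ℝ) ^ (k - 1) := by positivity
  calc (Set.ncard {s : Fin k → ℕ | (∀ i, 2 ≤ s i ∧ s i ≤ N) ∧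
        ∃ a : (Fin k → Fin (d + 1)) → ι → ℤ, a ≠ 0 ∧ (∀ e j, |(a e j : ℝ)| ≤ Real.exp h) ∧
          |∑ e : Fin k → Fin (d + 1), (∑ j, (a e j : ℝ) * θ j) *
            ∏ i, (zt (s i)) ^ ((e i : Fin (d + 1)) : ℕ)| ≤
          Real.exp (-(A * (h + ∑ i, (s i : ℝ))))} : ℝ) ≤ T.card := by exact_mod_cast h1
    _ ≤ (U.card : ℝ) * ((2 * (A₁ * h) + 1) * (N : ℝ) ^ (k - 1)) := h2
    _ ≤ (U.card : ℝ) * ((2 * A₁ + 1) * h * (N : ℝ) ^ (k - 1)) := by
      gcongr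
      nlinarith
    _ ≤ A * h * (N : ℝ) ^ (k - 1) := by
      have h4 : (U.card : ℝ) * (2 * A₁ + 1) ≤ A := by rw [hA]; linarith
      calc (U.card : ℝ) * ((2 * A₁ + 1) * h * (N : ℝ) ^ (k - 1)) =
          ((U.card : ℝ) * (2 * A₁ + 1)) * h * (N : ℝ) ^ (k - 1) := by ring
        _ ≤ _ := by gcongr

/-- **almost all tuples**, polynomials in `π` and zeta values -/
theorem almost (k d : ℕ) : ∃ A : ℝ, 0 < A ∧ ∀ (N : ℕ) (h : ℝ), 1 ≤ h →
    (Set.ncard {s : Fin k → ℕ | (∀ i, 2 ≤ s i ∧ s i ≤ N) ∧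
      ∃ P : MvPolynomial (Option (Fin k)) ℤ, P ≠ 0 ∧ P.totalDegree ≤ d ∧
        (∀ e, |((P.coeff e : ℤ) : ℝ)| ≤ Real.exp h) ∧
        |MvPolynomial.aeval (pt s) P| ≤ Real.exp (-(A * (h + ∑ i, (s i : ℝ))))} : ℝ) ≤
      A * h * (N : ℝ) ^ (k - 1) := by
  obtain ⟨A, hA, h0⟩ := almost_v _ (LM_pi d) k d
  refine ⟨A, hA, fun N h hh => le_trans ?_ (h0 N h hh)⟩
  have hfin : Set.Finite {s : Fin k → ℕ | (∀ i, 2 ≤ s i ∧ s i ≤ N) ∧
        ∃ a : (Fin k → Fin (d + 1)) → Fin (d + 1) → ℤ, a ≠ 0 ∧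
          (∀ e j, |(a e j : ℝ)| ≤ Real.exp h) ∧
          |∑ e : Fin k → Fin (d + 1), (∑ j : Fin (d + 1), (a e j : ℝ) * Real.pi ^ (j : ℕ)) *
            ∏ i, (zt (s i)) ^ ((e i : Fin (d + 1)) : ℕ)| ≤
          Real.exp (-(A * (h + ∑ i, (s i : ℝ))))} := by
    refine Set.Finite.subset (Finset.finite_toSet (box k N)) fun s hs => ?_
    rw [mem_coe, box, Fintype.mem_piFinset]
    exact fun i => by rw [mem_Icc]; exact hs.1 i
  have h1 := Set.ncard_le_ncard (s := {s : Fin k → ℕ | (∀ i, 2 ≤ s i ∧ s i ≤ N) ∧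
      ∃ P : MvPolynomial (Option (Fin k)) ℤ, P ≠ 0 ∧ P.totalDegree ≤ d ∧
        (∀ e, |((P.coeff e : ℤ) : ℝ)| ≤ Real.exp h) ∧
        |MvPolynomial.aeval (pt s) P| ≤ Real.exp (-(A * (h + ∑ i, (s i : ℝ))))}) (by
    rintro s ⟨hs, P, hP, hPd, hPC, hsmall⟩
    refine ⟨hs, _, coeff_ne hP hPd, fun e j => hPC _, ?_⟩
    rwa [← eval_ex hPd]) hfin
  exact_mod_cast h1

end Pool.Agent.Helper90.ZP
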