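import Pool.Agent.Helper90.ZP.Poly

/-!
# Polynomials in zeta values at arguments without resonances
-/

set_option autoImplicit false

namespace Pool.Agent.Helper90.ZP

open Finset Filter Topology Pool.Agent.Y760.PZ

lemma summ {s : ℕ} (hs : 2 ≤ s) : Summable fun m : ℕ => 1 / ((m : ℝ) + 1) ^ s := by
  have h1 : Summable fun m : ℕ => 1 / (m : ℝ) ^ s := Real.summable_one_div_nat_pow.2 (by omega)
  have h2 := (summable_nat_add_iff 1).2 h1
  simpa using h2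

lemma zt_eq {s : ℕ} (hs : 2 ≤ s) : zt s - 1 = ∑' m : ℕ, 1 / ((m : ℝ) + 2) ^ s := by
  rw [zt, (summ hs).tsum_eq_zero_add]
  have h1 : (1 : ℝ) / (((0 : ℕ) : ℝ) + 1) ^ s = 1 := by simp
  rw [h1, add_sub_cancel_left]
  refine tsum_congr fun m => ?_
  push_cast
  ring_nf

lemma summ2 {s : ℕ} (hs : 2 ≤ s) : Summable fun m : ℕ => 1 / ((m : ℝ) + 2) ^ s := by
  have h2 := (summable_nat_add_iff 1).2 (summ hs)
  refine h2.congr fun m => ?_
  push_cast
  ring_nf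

lemma zt_lower {s : ℕ} (hs : 2 ≤ s) : 1 / (2 : ℝ) ^ s ≤ zt s - 1 := by
  rw [zt_eq hs]
  have h1 := (summ2 hs).le_tsum 0 (fun m _ => by positivity)
  simpa using h1

lemma zt_upper {s : ℕ} (hs : 2 ≤ s) : zt s - 1 ≤ 4 * (1 / (2 : ℝ) ^ s) := by
  rw [zt_eq hs]
  refine Real.tsum_le_of_sum_range_le (fun m => by positivity) fun N => ?_
  have h1 : ∀ m : ℕ, 1 / ((m : ℝ) + 2) ^ s ≤
      4 * (1 / (2 : ℝ) ^ s) * (1 / ((m : ℝ) + 1) - 1 / ((m : ℝ) + 2)) := by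
    intro m
    have hm : (0 : ℝ) < (m : ℝ) + 2 := by positivity
    have h2 : (2 / ((m : ℝ) + 2)) ^ s ≤ (2 / ((m : ℝ) + 2)) ^ 2 := by
      refine pow_le_pow_of_le_one (by positivity) ?_ hs
      rw [div_le_one hm]
      have : (0 : ℝ) ≤ m := Nat.cast_nonneg m
      linarith
    have h3 : 1 / ((m : ℝ) + 2) ^ s = (1 / (2 : ℝ) ^ s) * (2 / ((m : ℝ) + 2)) ^ s := by
      rw [div_pow]
      field_simp
    have h4 : (2 / ((m : ℝ) + 2)) ^ 2 ≤ 4 * (1 / ((m : ℝ) + 1) - 1 / ((m : ℝ) + 2)) := by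
      have hm0 : (0 : ℝ) ≤ m := Nat.cast_nonneg m
      rw [div_sub_div _ _ (by positivity) (by positivity), div_pow, ← mul_div_assoc,
        div_le_div_iff₀ (by positivity) (by positivity)]
      nlinarith [mul_nonneg hm0 hm0, mul_nonneg (mul_nonneg hm0 hm0) hm0]
    rw [h3]
    calc (1 / (2 : ℝ) ^ s) * (2 / ((m : ℝ) + 2)) ^ s ≤
        (1 / (2 : ℝ) ^ s) * (4 * (1 / ((m : ℝ) + 1) - 1 / ((m : ℝ) + 2))) :=
          mul_le_mul_of_nonneg_left (h2.trans h4) (by positivity)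
      _ = _ := by ring
  have h5 : ∀ N : ℕ, ∑ m ∈ range N, (1 / ((m : ℝ) + 1) - 1 / ((m : ℝ) + 2)) =
      1 - 1 / ((N : ℝ) + 1) := by
    intro N
    induction N with
    | zero => simp
    | succ N ih =>
      rw [sum_range_succ, ih]
      push_cast
      ring_nf
  calc ∑ m ∈ range N, 1 / ((m : ℝ) + 2) ^ s ≤
      ∑ m ∈ range N, 4 * (1 / (2 : ℝ) ^ s) * (1 / ((m : ℝ) + 1) - 1 / ((m : ℝ) + 2)) :=
        sum_le_sum fun m _ => h1 m
    _ = 4 * (1 / (2 : ℝ) ^ s) * (1 - 1 / ((N : ℝ) + 1)) := by rw [← mul_sum, h5]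
    _ ≤ 4 * (1 / (2 : ℝ) ^ s) * 1 := by
      refine mul_le_mul_of_nonneg_left ?_ (by positivity)
      have : (0 : ℝ) < 1 / ((N : ℝ) + 1) := by positivity
      linarith
    _ = _ := mul_one _

lemma one_add_pow {d : ℕ} (e : Fin (d + 1)) (x : ℝ) :
    (1 + x) ^ (e : ℕ) = ∑ f : Fin (d + 1), (Nat.choose e f : ℝ) * x ^ (f : ℕ) := by
  rw [add_comm, add_pow, Fin.sum_univ_eq_sum_range (fun f => (Nat.choose e f : ℝ) * x ^ f)]
  have h1 : ∀ m ∈ range ((e : ℕ) + 1), x ^ m * 1 ^ ((e : ℕ) - m) * ((e : ℕ).choose m : ℝ) =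
      ((e : ℕ).choose m : ℝ) * x ^ m := by
    intro m _
    rw [one_pow]
    ring
  rw [sum_congr rfl h1]
  refine sum_subset ?_ ?_
  · intro m hm
    rw [mem_range] at hm ⊢
    have := e.2
    omega
  · intro m _ hm
    rw [mem_range] at hm
    rw [Nat.choose_eq_zero_of_lt (by omega)]
    simp

lemma prod_expand {k d : ℕ} (e : Fin k → Fin (d + 1)) (x : Fin k → ℝ) :
    ∏ i, (1 + x i) ^ ((e i : Fin (d + 1)) : ℕ) =
      ∑ f : Fin k → Fin (d + 1), (∏ i, (Nat.choose (e i) (f i) : ℝ)) *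
        ∏ i, x i ^ ((f i : Fin (d + 1)) : ℕ) := by
  have h1 : ∀ i, (1 + x i) ^ ((e i : Fin (d + 1)) : ℕ) =
      ∑ f : Fin (d + 1), (Nat.choose (e i) f : ℝ) * x i ^ (f : ℕ) := fun i => one_add_pow _ _
  simp only [h1]
  rw [prod_univ_sum, Fintype.piFinset_univ]
  exact sum_congr rfl fun f _ => prod_mul_distrib

/-- the coefficients of the translated polynomial -/
def bc {k d : ℕ} {ι : Type} (a : (Fin k → Fin (d + 1)) → ι → ℤ) (f : Fin k → Fin (d + 1))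
    (j : ι) : ℤ := ∑ e, a e j * ∏ i, (Nat.choose (e i) (f i) : ℤ)

lemma bc_ne {k d : ℕ} {ι : Type} (a : (Fin k → Fin (d + 1)) → ι → ℤ) (ha : a ≠ 0) :
    ∃ f j, bc a f j ≠ 0 := by
  classical
  obtain ⟨e1, he1⟩ : ∃ e, a e ≠ 0 := by
    by_contra h
    push Not at h
    exact ha (funext h)
  obtain ⟨e0, he0, hmax⟩ := exists_max_image (univ.filter fun e => a e ≠ 0)
    (fun e : Fin k → Fin (d + 1) => ∑ i, ((e i : Fin (d + 1)) : ℕ))
    ⟨e1, by rw [mem_filter]; exact ⟨mem_univ _, he1⟩⟩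
  rw [mem_filter] at he0
  obtain ⟨j, hj⟩ : ∃ j, a e0 j ≠ 0 := by
    by_contra h
    push Not at h
    exact he0.2 (funext h)
  refine ⟨e0, j, ?_⟩
  rw [bc, sum_eq_single e0]
  · simpa using hj
  · intro e _ hne
    by_cases hae : a e = 0
    · rw [hae]
      simp
    · have h1 := hmax e (by rw [mem_filter]; exact ⟨mem_univ _, hae⟩)
      obtain ⟨i, hi⟩ : ∃ i, ((e i : Fin (d + 1)) : ℕ) < ((e0 i : Fin (d + 1)) : ℕ) := by
        by_contra hcon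
        push Not at hcon
        apply hne
        have h2 : ∑ i, ((e i : Fin (d + 1)) : ℕ) = ∑ i, ((e0 i : Fin (d + 1)) : ℕ) :=
          le_antisymm h1 (sum_le_sum fun i _ => hcon i)
        have h3 := (sum_eq_sum_iff_of_le (fun i _ => hcon i)).1 h2.symm
        funext i
        exact (Fin.ext (h3 i (mem_univ i))).symm
      rw [prod_eq_zero (mem_univ i), mul_zero]
      rw [Nat.choose_eq_zero_of_lt hi]
      rfl
  · intro h
    exact absurd (mem_univ _) h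

lemma sum_translate {k d : ℕ} {ι : Type} [Fintype ι] (θ : ι → ℝ)
    (a : (Fin k → Fin (d + 1)) → ι → ℤ) (x : Fin k → ℝ) :
    ∑ e : Fin k → Fin (d + 1), (∑ j, (a e j : ℝ) * θ j) *
      ∏ i, (1 + x i) ^ ((e i : Fin (d + 1)) : ℕ) =
    ∑ f : Fin k → Fin (d + 1), (∑ j, (bc a f j : ℝ) * θ j) *
      ∏ i, x i ^ ((f i : Fin (d + 1)) : ℕ) := by
  simp only [prod_expand, bc]
  push_cast
  simp only [mul_sum, sum_mul]
  rw [sum_comm]
  refine sum_congr rfl fun f _ => ?_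
  rw [sum_comm]
  refine sum_congr rfl fun j _ => ?_
  refine sum_congr rfl fun e _ => ?_
  ring

lemma choose_prod_le {k d : ℕ} (e f : Fin k → Fin (d + 1)) :
    (∏ i, (Nat.choose (e i) (f i) : ℝ)) ≤ ((2 : ℝ) ^ d) ^ k := by
  calc (∏ i, (Nat.choose (e i) (f i) : ℝ)) ≤ ∏ _i : Fin k, (2 : ℝ) ^ d := by
        refine prod_le_prod (fun i _ => by positivity) fun i _ => ?_
        have h1 : Nat.choose (e i) (f i) ≤ 2 ^ ((e i : Fin (d + 1)) : ℕ) := Nat.choose_le_two_pow _ _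
        have h2 : 2 ^ ((e i : Fin (d + 1)) : ℕ) ≤ 2 ^ d :=
          Nat.pow_le_pow_right (by norm_num) (by have := (e i).2; omega)
        exact_mod_cast h1.trans h2
    _ = _ := by simp

lemma bc_le {k d : ℕ} {ι : Type} (a : (Fin k → Fin (d + 1)) → ι → ℤ) {X : ℝ} (hX : 0 ≤ X)
    (ha : ∀ e j, |(a e j : ℝ)| ≤ X) (f : Fin k → Fin (d + 1)) (j : ι) :
    |(bc a f j : ℝ)| ≤ (((d : ℝ) + 1) ^ k * ((2 : ℝ) ^ d) ^ k) * X := by
  rw [bc]
  push_cast
  refine (abs_sum_le_sum_abs _ _).trans ?_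
  calc ∑ e : Fin k → Fin (d + 1), |(a e j : ℝ) * ∏ i, (Nat.choose (e i) (f i) : ℝ)| ≤
      ∑ _e : Fin k → Fin (d + 1), X * ((2 : ℝ) ^ d) ^ k := by
        refine sum_le_sum fun e _ => ?_
        rw [abs_mul, abs_of_nonneg (prod_nonneg fun i _ => by positivity :
          (0 : ℝ) ≤ ∏ i, (Nat.choose (e i) (f i) : ℝ))]
        exact mul_le_mul (ha e j) (choose_prod_le e f)
          (prod_nonneg fun i _ => by positivity) hX
    _ = _ := by
      rw [sum_const, card_univ, Fintype.card_fun, Fintype.card_fin, Fintype.card_fin, nsmul_eq_mul]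
      push_cast
      ring

/-- the weight -/
def wt {k d : ℕ} (s : Fin k → ℕ) (f : Fin k → Fin (d + 1)) : ℕ := ∑ i, (f i : ℕ) * s i

lemma prod_lower {k d : ℕ} (s : Fin k → ℕ) (hs : ∀ i, 2 ≤ s i) (f : Fin k → Fin (d + 1)) :
    1 / (2 : ℝ) ^ wt s f ≤ ∏ i, (zt (s i) - 1) ^ ((f i : Fin (d + 1)) : ℕ) := by
  have h1 : (1 : ℝ) / 2 ^ wt s f = ∏ i, (1 / (2 : ℝ) ^ s i) ^ ((f i : Fin (d + 1)) : ℕ) := by
    rw [wt, ← prod_pow_eq_pow_sum, one_div, ← prod_inv_distrib]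
    refine prod_congr rfl fun i _ => ?_
    rw [one_div, inv_pow, ← pow_mul, mul_comm]
  rw [h1]
  exact prod_le_prod (fun i _ => by positivity) fun i _ =>
    pow_le_pow_left₀ (by positivity) (zt_lower (hs i)) _

lemma prod_upper {k d : ℕ} (s : Fin k → ℕ) (hs : ∀ i, 2 ≤ s i) (f : Fin k → Fin (d + 1)) :
    |∏ i, (zt (s i) - 1) ^ ((f i : Fin (d + 1)) : ℕ)| ≤ ((4 : ℝ) ^ d) ^ k * (1 / (2 : ℝ) ^ wt s f) := by
  have h1 : (1 : ℝ) / 2 ^ wt s f = ∏ i, (1 / (2 : ℝ) ^ s i) ^ ((f i : Fin (d + 1)) : ℕ) := by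
    rw [wt, ← prod_pow_eq_pow_sum, one_div, ← prod_inv_distrib]
    refine prod_congr rfl fun i _ => ?_
    rw [one_div, inv_pow, ← pow_mul, mul_comm]
  have h2 : ((4 : ℝ) ^ d) ^ k = ∏ _i : Fin k, (4 : ℝ) ^ d := by simp
  rw [h1, h2, ← prod_mul_distrib, abs_prod]
  refine prod_le_prod (fun i _ => abs_nonneg _) fun i _ => ?_
  have h3 := zt_lower (hs i)
  have h4 := zt_upper (hs i)
  have h5 : (0 : ℝ) < 1 / 2 ^ s i := by positivity
  rw [abs_pow, abs_of_pos (by linarith)]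
  calc (zt (s i) - 1) ^ ((f i : Fin (d + 1)) : ℕ) ≤
      (4 * (1 / (2 : ℝ) ^ s i)) ^ ((f i : Fin (d + 1)) : ℕ) :=
        pow_le_pow_left₀ (by linarith) h4 _
    _ = (4 : ℝ) ^ ((f i : Fin (d + 1)) : ℕ) * (1 / (2 : ℝ) ^ s i) ^ ((f i : Fin (d + 1)) : ℕ) :=
        mul_pow _ _ _
    _ ≤ _ := by
      refine mul_le_mul_of_nonneg_right ?_ (by positivity)
      exact pow_le_pow_right₀ (by norm_num) (by have := (f i).2; omega)

/-- **no resonances**: the largest term dominates -/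
theorem dominate {ι : Type} [Fintype ι] (θ : ι → ℝ) (hθ : LM θ) (k d : ℕ) {η : ℝ} (hη : 0 < η) :
    ∃ B C : ℝ, 1 < B ∧ 1 < C ∧ ∃ n0 : ℕ, ∀ n : ℕ, n0 ≤ n → ∀ s : Fin k → ℕ, (∀ i, n ≤ s i) →
      (∀ u : Fin k → ℤ, u ≠ 0 → (∀ i, |u i| ≤ d) → η * n ≤ |∑ i, (u i : ℝ) * s i|) →
      ∀ a : (Fin k → Fin (d + 1)) → ι → ℤ, a ≠ 0 → (∀ e j, |(a e j : ℝ)| ≤ C ^ n) →
      (B ^ (n + ∑ i, s i))⁻¹ < |∑ e : Fin k → Fin (d + 1), (∑ j, (a e j : ℝ) * θ j) *
        ∏ i, (zt (s i)) ^ ((e i : Fin (d + 1)) : ℕ)| := by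
  classical
  obtain ⟨κ, c, hκ, hc, hmeas⟩ := hθ
  have hσ : (1 : ℝ) < 2 ^ (η / 2) := Real.one_lt_rpow (by norm_num) (by positivity)
  obtain ⟨C, W, hC, hW, hCW, hpow⟩ := exists_CW hσ hκ
  have hC0 : (0 : ℝ) < C := by linarith
  have hW0 : (0 : ℝ) < W := by linarith
  set M0 : ℝ := ((d : ℝ) + 1) ^ k * ((2 : ℝ) ^ d) ^ k with hM0
  have hM01 : 1 ≤ M0 := by
    have h1 : (1 : ℝ) ≤ ((d : ℝ) + 1) ^ k := one_le_pow₀ (by
      have : (0 : ℝ) ≤ d := Nat.cast_nonneg d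
      linarith)
    have h2 : (1 : ℝ) ≤ ((2 : ℝ) ^ d) ^ k := one_le_pow₀ (one_le_pow₀ (by norm_num))
    exact one_le_mul_of_one_le_of_one_le h1 h2
  have hM00 : (0 : ℝ) < M0 := by linarith
  set S : ℝ := ∑ j : ι, |θ j| with hS
  have hS0 : 0 ≤ S := sum_nonneg fun j _ => abs_nonneg _
  set c1 : ℝ := c / M0 ^ κ with hc1
  have hc10 : 0 < c1 := div_pos hc (Real.rpow_pos_of_pos hM00 κ)
  set R : ℝ := ((d : ℝ) + 1) ^ k * (M0 * S * ((4 : ℝ) ^ d) ^ k) with hR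
  have hR0 : 0 ≤ R := by positivity
  -- the two limits
  have e1 : ∀ᶠ n : ℕ in atTop, R / ((2 : ℝ) ^ (η / 2)) ^ n < c1 / 2 := by
    have h1 : Tendsto (fun n : ℕ => R / ((2 : ℝ) ^ (η / 2)) ^ n) atTop (𝓝 0) :=
      tendsto_const_nhds.div_atTop (tendsto_pow_atTop_atTop_of_one_lt hσ)
    exact h1.eventually (gt_mem_nhds (by positivity))
  have e2 : ∀ᶠ n : ℕ in atTop, 1 / ((2 : ℝ)) ^ n < c1 / 2 := by
    have h1 : Tendsto (fun n : ℕ => 1 / (2 : ℝ) ^ n) atTop (𝓝 0) :=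
      tendsto_const_nhds.div_atTop (tendsto_pow_atTop_atTop_of_one_lt (by norm_num))
    exact h1.eventually (gt_mem_nhds (by positivity))
  obtain ⟨n1, hn1⟩ := eventually_atTop.1 e1
  obtain ⟨n2, hn2⟩ := eventually_atTop.1 e2
  refine ⟨2 * (2 ^ d * W), C, by
    have h1 : (1 : ℝ) ≤ 2 ^ d := one_le_pow₀ (by norm_num)
    nlinarith, hC, n1 + n2 + 2, fun n hn s hns hres a ha haC => ?_⟩
  have hs2 : ∀ i, 2 ≤ s i := fun i => by have := hns i; omega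
  have hCn : (0 : ℝ) < C ^ n := by positivity
  have hCn1 : (1 : ℝ) ≤ C ^ n := one_le_pow₀ hC.le
  -- translate
  have hT : ∑ e : Fin k → Fin (d + 1), (∑ j, (a e j : ℝ) * θ j) *
        ∏ i, (zt (s i)) ^ ((e i : Fin (d + 1)) : ℕ) =
      ∑ f : Fin k → Fin (d + 1), (∑ j, (bc a f j : ℝ) * θ j) *
        ∏ i, (zt (s i) - 1) ^ ((f i : Fin (d + 1)) : ℕ) := by
    rw [← sum_translate]
    simp only [add_sub_cancel]
  rw [hT]
  -- the smallest weight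
  obtain ⟨g, j0, hg⟩ := bc_ne a ha
  obtain ⟨f0, hf0, hmin⟩ := exists_min_image (univ.filter fun f => bc a f ≠ 0)
    (fun f : Fin k → Fin (d + 1) => wt s f)
    ⟨g, by rw [mem_filter]; exact ⟨mem_univ _, fun h => hg (congrFun h j0)⟩⟩
  rw [mem_filter] at hf0
  set w0 : ℕ := wt s f0 with hw0
  -- gap
  have hgap : ∀ f, bc a f ≠ 0 → f ≠ f0 → (w0 : ℝ) + η * n ≤ wt s f := by
    intro f hf hne
    have h1 := hmin f (by rw [mem_filter]; exact ⟨mem_univ _, hf⟩)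
    have h2 := hres (fun i => ((f i : ℕ) : ℤ) - ((f0 i : ℕ) : ℤ)) (by
      intro h0
      apply hne
      funext i
      have h3 := congrFun h0 i
      simp only [Pi.zero_apply] at h3
      exact Fin.ext (by omega)) (fun i => by
        have h3 := (f i).2
        have h4 := (f0 i).2
        rw [abs_le]
        constructor <;> omega)
    have h3 : ∑ i, ((((f i : ℕ) : ℤ) - ((f0 i : ℕ) : ℤ) : ℤ) : ℝ) * (s i : ℝ) =
        (wt s f : ℝ) - w0 := by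
      rw [hw0, wt, wt]
      push_cast
      rw [← sum_sub_distrib]
      exact sum_congr rfl fun i _ => by ring
    rw [h3] at h2
    have h4 : (w0 : ℝ) ≤ wt s f := by exact_mod_cast h1
    rw [abs_of_nonneg (by linarith)] at h2
    linarith
  -- the main term
  have hbX : ∀ f j, |(bc a f j : ℝ)| ≤ M0 * C ^ n := fun f j => bc_le a hCn.le haC f j
  have hmain : c1 ≤ W ^ n * |∑ j, (bc a f0 j : ℝ) * θ j| := by
    have h1 := hmeas (bc a f0) hf0.2 (M0 * C ^ n)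
      (one_le_mul_of_one_le_of_one_le hM01 hCn1) (hbX f0)
    rw [hpow M0 n hM00.le] at h1
    rw [hc1, div_le_iff₀ (Real.rpow_pos_of_pos hM00 κ)]
    linarith
  set β : (Fin k → Fin (d + 1)) → ℝ := fun f => ∑ j, (bc a f j : ℝ) * θ j with hβ
  have hβX : ∀ f, |β f| ≤ M0 * S * C ^ n := by
    intro f
    rw [hβ]
    refine (abs_sum_le_sum_abs _ _).trans ?_
    calc ∑ j, |(bc a f j : ℝ) * θ j| ≤ ∑ j, M0 * C ^ n * |θ j| := by
          refine sum_le_sum fun j _ => ?_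
          rw [abs_mul]
          exact mul_le_mul_of_nonneg_right (hbX f j) (abs_nonneg _)
      _ = _ := by
        rw [← mul_sum, hS]
        ring
  have hWn : (0 : ℝ) < W ^ n := by positivity
  have hw : (0 : ℝ) < 2 ^ w0 := by positivity
  -- the other terms
  have hoth : ∀ f, f ≠ f0 → |β f * ∏ i, (zt (s i) - 1) ^ ((f i : Fin (d + 1)) : ℕ)| ≤
      M0 * S * ((4 : ℝ) ^ d) ^ k * (C ^ n * (((2 : ℝ) ^ η) ^ n)⁻¹) * (1 / (2 : ℝ) ^ w0) := by
    intro f hne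
    by_cases hf : bc a f = 0
    · have h1 : β f = 0 := by
        rw [hβ]
        simp [hf]
      rw [h1, zero_mul, abs_zero]
      positivity
    · have h1 := hgap f hf hne
      have h2 : (1 : ℝ) / 2 ^ wt s f ≤ (((2 : ℝ) ^ η) ^ n)⁻¹ * (1 / (2 : ℝ) ^ w0) := by
        rw [← one_div, div_mul_div_comm, one_mul]
        refine one_div_le_one_div_of_le (by positivity) ?_
        rw [← Real.rpow_natCast ((2 : ℝ) ^ η), ← Real.rpow_mul (by norm_num),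
          ← Real.rpow_natCast 2 w0, ← Real.rpow_natCast 2 (wt s f),
          ← Real.rpow_add (by norm_num)]
        exact Real.rpow_le_rpow_of_exponent_le (by norm_num) (by linarith)
      rw [abs_mul]
      calc |β f| * |∏ i, (zt (s i) - 1) ^ ((f i : Fin (d + 1)) : ℕ)| ≤
          (M0 * S * C ^ n) * (((4 : ℝ) ^ d) ^ k * (1 / (2 : ℝ) ^ wt s f)) :=
            mul_le_mul (hβX f) (prod_upper s hs2 f) (abs_nonneg _) (by positivity)
        _ ≤ (M0 * S * C ^ n) * (((4 : ℝ) ^ d) ^ k *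
            ((((2 : ℝ) ^ η) ^ n)⁻¹ * (1 / (2 : ℝ) ^ w0))) := by gcongr
        _ = _ := by ring
  have hsum : |∑ f ∈ univ.erase f0, β f * ∏ i, (zt (s i) - 1) ^ ((f i : Fin (d + 1)) : ℕ)| ≤
      R * (C ^ n * (((2 : ℝ) ^ η) ^ n)⁻¹) * (1 / (2 : ℝ) ^ w0) := by
    refine (abs_sum_le_sum_abs _ _).trans ?_
    calc ∑ f ∈ univ.erase f0, |β f * ∏ i, (zt (s i) - 1) ^ ((f i : Fin (d + 1)) : ℕ)| ≤
        ∑ _f ∈ univ.erase f0,
          M0 * S * ((4 : ℝ) ^ d) ^ k * (C ^ n * (((2 : ℝ) ^ η) ^ n)⁻¹) * (1 / (2 : ℝ) ^ w0) :=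
          sum_le_sum fun f hf => hoth f (ne_of_mem_erase hf)
      _ ≤ ∑ _f : Fin k → Fin (d + 1),
          M0 * S * ((4 : ℝ) ^ d) ^ k * (C ^ n * (((2 : ℝ) ^ η) ^ n)⁻¹) * (1 / (2 : ℝ) ^ w0) :=
          sum_le_sum_of_subset_of_nonneg (erase_subset _ _) fun f _ _ => by positivity
      _ = _ := by
        rw [sum_const, card_univ, Fintype.card_fun, Fintype.card_fin, Fintype.card_fin,
          nsmul_eq_mul, hR]
        push_cast
        ring
  have hfirst : c1 / W ^ n * (1 / (2 : ℝ) ^ w0) ≤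
      |β f0 * ∏ i, (zt (s i) - 1) ^ ((f0 i : Fin (d + 1)) : ℕ)| := by
    rw [abs_mul]
    have h1 : c1 / W ^ n ≤ |β f0| := by
      rw [div_le_iff₀ hWn]
      linarith
    have h2 := prod_lower s hs2 f0
    have h3 : (0 : ℝ) < 1 / 2 ^ w0 := by positivity
    rw [abs_of_nonneg (h3.le.trans h2)]
    exact mul_le_mul h1 h2 h3.le (abs_nonneg _)
  rw [← add_sum_erase _ _ (mem_univ f0)]
  have htri := abs_sub_abs_le_abs_add
    (β f0 * ∏ i, (zt (s i) - 1) ^ ((f0 i : Fin (d + 1)) : ℕ))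
    (∑ f ∈ univ.erase f0, β f * ∏ i, (zt (s i) - 1) ^ ((f i : Fin (d + 1)) : ℕ))
  refine lt_of_lt_of_le ?_ htri
  refine lt_of_lt_of_le ?_ (sub_le_sub hfirst hsum)
  -- numerical inequality
  have hσn : C ^ n * W ^ n = ((2 : ℝ) ^ (η / 2)) ^ n := by rw [← mul_pow, hCW]
  have hση : ((2 : ℝ) ^ η) ^ n = ((2 : ℝ) ^ (η / 2)) ^ n * ((2 : ℝ) ^ (η / 2)) ^ n := by
    rw [← mul_pow, ← Real.rpow_add (by norm_num), add_halves]
  have h1 := hn1 n (by omega)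
  have h2 := hn2 n (by omega)
  set z : ℝ := ((2 : ℝ) ^ (η / 2)) ^ n with hz
  have hz0 : 0 < z := by positivity
  have h3 : R * (C ^ n * (((2 : ℝ) ^ η) ^ n)⁻¹) = R / z / W ^ n := by
    rw [hση]
    field_simp
    rw [← hσn]
    ring
  rw [h3]
  have h4 : c1 / W ^ n * (1 / (2 : ℝ) ^ w0) - R / z / W ^ n * (1 / (2 : ℝ) ^ w0) =
      (c1 - R / z) * (1 / (W ^ n * 2 ^ w0)) := by
    field_simp
  rw [h4]
  have h5 : (1 : ℝ) / 2 ^ n * (1 / (W ^ n * 2 ^ w0)) < (c1 - R / z) * (1 / (W ^ n * 2 ^ w0)) :=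
    mul_lt_mul_of_pos_right (by linarith) (by positivity)
  refine lt_of_le_of_lt ?_ h5
  rw [← one_div, div_mul_div_comm, one_mul]
  refine one_div_le_one_div_of_le (by positivity) ?_
  have hw0s : w0 ≤ d * ∑ i, s i := by
    rw [hw0, wt, mul_sum]
    refine sum_le_sum fun i _ => Nat.mul_le_mul_right _ (by have := (f0 i).2; omega)
  have hns' : n ≤ n + ∑ i, s i := Nat.le_add_right _ _
  calc (2 : ℝ) ^ n * (W ^ n * 2 ^ w0) ≤
      2 ^ (n + ∑ i, s i) * (W ^ (n + ∑ i, s i) * (2 ^ d) ^ (n + ∑ i, s i)) := by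
        have g1 : (2 : ℝ) ^ n ≤ 2 ^ (n + ∑ i, s i) := pow_le_pow_right₀ (by norm_num) hns'
        have g2 : W ^ n ≤ W ^ (n + ∑ i, s i) := pow_le_pow_right₀ hW hns'
        have g3 : (2 : ℝ) ^ w0 ≤ (2 ^ d) ^ (n + ∑ i, s i) := by
          rw [← pow_mul]
          exact pow_le_pow_right₀ (by norm_num)
            (hw0s.trans (Nat.mul_le_mul_left d (Nat.le_add_left _ _)))
        gcongr
    _ = _ := by
      rw [mul_pow, mul_pow]
      ring

end Pool.Agent.Helper90.ZP
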