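import Pool.Agent.Helper90.ZP.Dom

/-!
# Polynomials in two zeta values
-/

set_option autoImplicit false

namespace Pool.Agent.Helper90.ZP

open Finset Pool.Agent.Y760.PZ

/-- **all pairs** `s < t` -/
theorem pairs_v {ι : Type} [Fintype ι] (θ : ι → ℝ) (hθ : LM θ) (d : ℕ) :
    ∃ B C : ℝ, 1 < B ∧ 1 < C ∧ ∃ n0 : ℕ, ∀ s t : ℕ, n0 ≤ s → s < t →
      ∀ a : (Fin 2 → Fin (d + 1)) → ι → ℤ, a ≠ 0 → (∀ e j, |(a e j : ℝ)| ≤ C ^ s) →
      (B ^ t)⁻¹ < |∑ e : Fin 2 → Fin (d + 1), (∑ j, (a e j : ℝ) * θ j) *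
        ∏ i, (zt (![s, t] i)) ^ ((e i : Fin (d + 1)) : ℕ)| := by
  classical
  -- windows for the finitely many ratios
  have hw : ∀ r : Fin (d + 1) × Fin (d + 1), ∃ ε B C : ℝ, 0 < ε ∧ 1 < B ∧ 1 < C ∧ ∃ n0 : ℕ,
      ∀ n : ℕ, n0 ≤ n → ∀ s : Fin 2 → ℕ,
      Function.Injective s → (∀ i, |(s i : ℝ) - (![(r.1 : ℕ) + 1, (r.2 : ℕ) + 1] i : ℕ) * n| ≤ ε * n) →
      ∀ a : (Fin 2 → Fin (d + 1)) → ι → ℤ, a ≠ 0 → (∀ e j, |(a e j : ℝ)| ≤ C ^ n) →
      (B ^ n)⁻¹ < |∑ e : Fin 2 → Fin (d + 1), (∑ j, (a e j : ℝ) * θ j) *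
        ∏ i, (zt (s i)) ^ ((e i : Fin (d + 1)) : ℕ)| := fun r =>
    windows_v θ hθ 2 d ![(r.1 : ℕ) + 1, (r.2 : ℕ) + 1] (by
      intro i
      fin_cases i <;> simp)
  choose ε B C hε hB hC n0 h using hw
  -- uniform constants
  obtain ⟨e0, he0, hle⟩ : ∃ e0 : ℝ, 0 < e0 ∧ ∀ r, e0 ≤ ε r := by
    obtain ⟨r, hr, hmin⟩ := exists_min_image (univ : Finset (Fin (d + 1) × Fin (d + 1))) ε
      ⟨(0, 0), mem_univ _⟩
    exact ⟨ε r, hε r, fun x => hmin x (mem_univ _)⟩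
  obtain ⟨C0, hC0, hCle⟩ : ∃ C0 : ℝ, 1 < C0 ∧ ∀ r, C0 ≤ C r := by
    obtain ⟨r, hr, hmin⟩ := exists_min_image (univ : Finset (Fin (d + 1) × Fin (d + 1))) C
      ⟨(0, 0), mem_univ _⟩
    exact ⟨C r, hC r, fun x => hmin x (mem_univ _)⟩
  obtain ⟨B0, hB0, hBle⟩ : ∃ B0 : ℝ, 1 < B0 ∧ ∀ r, B r ≤ B0 := by
    obtain ⟨r, hr, hmax⟩ := exists_max_image (univ : Finset (Fin (d + 1) × Fin (d + 1))) B
      ⟨(0, 0), mem_univ _⟩
    exact ⟨B r, hB r, fun x => hmax x (mem_univ _)⟩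
  obtain ⟨N0, hN0⟩ : ∃ N0 : ℕ, ∀ r, n0 r ≤ N0 := ⟨∑ r, n0 r, fun r =>
    Finset.single_le_sum (f := n0) (fun _ _ => Nat.zero_le _) (Finset.mem_univ r)⟩
  have hd1 : (0 : ℝ) < (d : ℝ) + 1 := by positivity
  set η : ℝ := min (e0 / (4 * ((d : ℝ) + 1))) (1 / 2) with hη
  have hη0 : 0 < η := by rw [hη]; positivity
  have hη1 : η ≤ 1 / 2 := min_le_right _ _
  have hη2 : 4 * ((d : ℝ) + 1) * η ≤ e0 := by
    have h1 : η ≤ e0 / (4 * ((d : ℝ) + 1)) := min_le_left _ _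
    rw [le_div_iff₀ (by positivity)] at h1
    linarith
  obtain ⟨B1, C1, hB1, hC1, n1, h1⟩ := dominate θ hθ 2 d hη0
  -- the root of `C0`
  obtain ⟨C2, hC2, hC2C⟩ : ∃ C2 : ℝ, 1 < C2 ∧ C2 ^ (2 * (d + 1)) ≤ C0 := by
    refine ⟨C0 ^ ((1 : ℝ) / ((2 * (d + 1) : ℕ) : ℝ)), Real.one_lt_rpow hC0 (by positivity), ?_⟩
    rw [← Real.rpow_natCast, ← Real.rpow_mul (by linarith), one_div,
      inv_mul_cancel₀ (by positivity), Real.rpow_one]
  obtain ⟨m0, hm0⟩ := exists_nat_ge (8 * ((d : ℝ) + 1) ^ 2 / e0)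
  refine ⟨max B0 (B1 ^ 3), min C1 C2, lt_of_lt_of_le hB0 (le_max_left _ _), lt_min hC1 hC2,
    n1 + m0 + 2 * (d + 1) * (N0 + 2) + 2, fun s t hs hst a ha haC => ?_⟩
  have hmin0 : (0 : ℝ) ≤ min C1 C2 := le_min (by linarith) (by linarith)
  have hst1 : (s : ℝ) + 1 ≤ t := by exact_mod_cast hst
  have hs0 : (0 : ℝ) < s := by
    have : 0 < s := by omega
    exact_mod_cast this
  by_cases hres : ∀ u : Fin 2 → ℤ, u ≠ 0 → (∀ i, |u i| ≤ d) →
      η * s ≤ |∑ i, (u i : ℝ) * ((![s, t] i : ℕ) : ℝ)|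
  · -- no resonance
    have h2 := h1 s (by omega) ![s, t] (by
      intro i
      fin_cases i
      · simp
      · simpa using hst.le) hres a ha (fun e j => (haC e j).trans
        (pow_le_pow_left₀ hmin0 (min_le_left _ _) _))
    refine lt_of_le_of_lt ?_ h2
    rw [Fin.sum_univ_two]
    simp only [Matrix.cons_val_zero, Matrix.cons_val_one]
    have h3 : B1 ^ (s + (s + t)) ≤ (B1 ^ 3) ^ t := by
      rw [← pow_mul]
      exact pow_le_pow_right₀ hB1.le (by omega)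
    have h4 : (B1 ^ 3) ^ t ≤ max B0 (B1 ^ 3) ^ t :=
      pow_le_pow_left₀ (by positivity) (le_max_right _ _) _
    exact inv_anti₀ (by positivity) (h3.trans h4)
  · push Not at hres
    obtain ⟨u, hu0, hud, hu⟩ := hres
    rw [Fin.sum_univ_two] at hu
    simp only [Matrix.cons_val_zero, Matrix.cons_val_one] at hu
    have key : ∀ p q : ℕ, 1 ≤ p → p ≤ d → 1 ≤ q → q ≤ d → |(p : ℝ) * t - q * s| < η * s →
        (max B0 (B1 ^ 3) ^ t)⁻¹ < |∑ e : Fin 2 → Fin (d + 1), (∑ j, (a e j : ℝ) * θ j) *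
          ∏ i, (zt (![s, t] i)) ^ ((e i : Fin (d + 1)) : ℕ)| := by
      intro p q hp1 hpd hq1 hqd hpq
      -- `s ≈ p n`, `t ≈ q n`
      set n : ℕ := s / p with hn
      have hpos : 0 < p := hp1
      have hdm := Nat.div_add_mod s p
      have hmod := Nat.mod_lt s hpos
      set ρ : ℕ := s % p with hρ
      have hsR : (s : ℝ) = p * n + ρ := by exact_mod_cast hdm.symm
      have hρ1 : (ρ : ℝ) ≤ p := by exact_mod_cast hmod.le
      have hρ0 : (0 : ℝ) ≤ ρ := Nat.cast_nonneg _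
      have hp1R : (1 : ℝ) ≤ p := by exact_mod_cast hp1
      have hpdR : (p : ℝ) ≤ d := by exact_mod_cast hpd
      have hqdR : (q : ℝ) ≤ d := by exact_mod_cast hqd
      have hq1R : (1 : ℝ) ≤ q := by exact_mod_cast hq1
      have hns : n ≤ s := Nat.div_le_self _ _
      have hnlow : s ≤ 2 * (d + 1) * n := by
        have h5 : 2 * (d + 1) * (N0 + 2) ≤ s := by omega
        have h6 : 2 * p ≤ s := by nlinarith
        have h7 : s ≤ 2 * p * n := by
          have h8 : p * n + ρ = s := hdm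
          nlinarith
        nlinarith
      have hnN : N0 ≤ n := by
        have h5 : 2 * (d + 1) * (N0 + 2) ≤ s := by omega
        have h6 : 2 * (d + 1) * (N0 + 2) ≤ 2 * (d + 1) * n := h5.trans hnlow
        have h7 : N0 + 2 ≤ n := Nat.le_of_mul_le_mul_left h6 (by positivity)
        omega
      have hnlowR : (s : ℝ) ≤ 2 * (d + 1) * n := by exact_mod_cast hnlow
      have hsm : 8 * ((d : ℝ) + 1) ^ 2 ≤ e0 * s := by
        have h5 : (m0 : ℝ) ≤ s := by
          have : m0 ≤ s := by omega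
          exact_mod_cast this
        have h6 := hm0.trans h5
        rw [div_le_iff₀ he0] at h6
        linarith
      -- the errors
      have herr : (d : ℝ) + η * s ≤ e0 * n := by
        have h5 : e0 * s ≤ e0 * (2 * (d + 1) * n) := mul_le_mul_of_nonneg_left hnlowR he0.le
        have h6 : 4 * ((d : ℝ) + 1) * η * s ≤ e0 * s := mul_le_mul_of_nonneg_right hη2 hs0.le
        have h7 : 4 * ((d : ℝ) + 1) * (d + η * s) ≤ 4 * ((d : ℝ) + 1) * (e0 * n) := by
          nlinarith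
        exact le_of_mul_le_mul_left h7 (by positivity)
      have hηs : 0 ≤ η * s := by positivity
      have hnn : (0 : ℝ) ≤ n := Nat.cast_nonneg _
      obtain ⟨p', rfl⟩ : ∃ p', p = p' + 1 := ⟨p - 1, by omega⟩
      obtain ⟨q', rfl⟩ : ∃ q', q = q' + 1 := ⟨q - 1, by omega⟩
      set r : Fin (d + 1) × Fin (d + 1) := (⟨p', by omega⟩, ⟨q', by omega⟩) with hr
      have h8 := h r n ((hN0 r).trans hnN) ![s, t] (by
        intro i j hij
        fin_cases i <;> fin_cases j <;> simp at hij ⊢ <;> omega) (by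
        intro i
        have hεr : e0 * n ≤ ε r * n := mul_le_mul_of_nonneg_right (hle r) hnn
        fin_cases i
        · show |(s : ℝ) - ((p' + 1 : ℕ) : ℝ) * n| ≤ ε r * n
          rw [hsR, add_sub_cancel_left, abs_of_nonneg hρ0]
          linarith
        · show |(t : ℝ) - ((q' + 1 : ℕ) : ℝ) * n| ≤ ε r * n
          have h9 : ((p' + 1 : ℕ) : ℝ) * ((t : ℝ) - ((q' + 1 : ℕ) : ℝ) * n) =
              (((p' + 1 : ℕ) : ℝ) * t - ((q' + 1 : ℕ) : ℝ) * s) + ((q' + 1 : ℕ) : ℝ) * ρ := by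
            rw [hsR]
            ring
          have h10 := abs_lt.1 hpq
          have h11 : |((p' + 1 : ℕ) : ℝ) * ((t : ℝ) - ((q' + 1 : ℕ) : ℝ) * n)| ≤
              ((p' + 1 : ℕ) : ℝ) * (d + η * s) := by
            rw [h9, abs_le]
            constructor
            · nlinarith
            · nlinarith
          rw [abs_mul, abs_of_nonneg (by linarith : (0 : ℝ) ≤ ((p' + 1 : ℕ) : ℝ))] at h11
          have h12 := le_of_mul_le_mul_left h11 (by linarith)
          linarith) a ha (fun e j => by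
        refine (haC e j).trans ?_
        calc (min C1 C2) ^ s ≤ C2 ^ s := pow_le_pow_left₀ hmin0 (min_le_right _ _) _
          _ ≤ C2 ^ (2 * (d + 1) * n) := pow_le_pow_right₀ hC2.le hnlow
          _ = (C2 ^ (2 * (d + 1))) ^ n := pow_mul _ _ _
          _ ≤ C r ^ n := pow_le_pow_left₀ (by positivity) (hC2C.trans (hCle r)) _)
      refine lt_of_le_of_lt ?_ h8
      have hBr0 : 0 < B r := by have := hB r; linarith
      have h13 : B r ^ n ≤ max B0 (B1 ^ 3) ^ t := by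
        calc B r ^ n ≤ B r ^ t := pow_le_pow_right₀ (hB r).le (by omega)
          _ ≤ _ := pow_le_pow_left₀ hBr0.le ((hBle r).trans (le_max_left _ _)) _
      exact inv_anti₀ (by positivity) h13
    have hu0d := abs_le.1 (hud 0)
    have hu1d := abs_le.1 (hud 1)
    have ht0 : (0 : ℝ) < t := by linarith
    have hηs : η * s ≤ 1 / 2 * s := mul_le_mul_of_nonneg_right hη1 hs0.le
    rcases lt_trichotomy (u 1) 0 with h11 | h11 | h11
    · rcases lt_trichotomy (u 0) 0 with h10 | h10 | h10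
      · exfalso
        have g1 : ((u 0 : ℤ) : ℝ) ≤ -1 := by exact_mod_cast (by omega : u 0 ≤ -1)
        have g2 : ((u 1 : ℤ) : ℝ) ≤ -1 := by exact_mod_cast (by omega : u 1 ≤ -1)
        have g3 := abs_lt.1 hu
        nlinarith [g3.1, mul_le_mul_of_nonneg_right g1 hs0.le, mul_le_mul_of_nonneg_right g2 ht0.le]
      · exfalso
        have g2 : ((u 1 : ℤ) : ℝ) ≤ -1 := by exact_mod_cast (by omega : u 1 ≤ -1)
        have g3 := abs_lt.1 hu
        rw [h10, Int.cast_zero, zero_mul, zero_add] at g3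
        nlinarith [g3.1, mul_le_mul_of_nonneg_right g2 ht0.le]
      · refine key (u 1).natAbs (u 0).natAbs (by omega) (by omega) (by omega) (by omega) ?_
        have g1 : (((u 1).natAbs : ℕ) : ℝ) = -(u 1 : ℝ) := by
          rw [Nat.cast_natAbs, Int.cast_abs, abs_of_neg (by exact_mod_cast h11)]
        have g2 : (((u 0).natAbs : ℕ) : ℝ) = (u 0 : ℝ) := by
          rw [Nat.cast_natAbs, Int.cast_abs, abs_of_pos (by exact_mod_cast h10)]
        rw [g1, g2]
        have g3 : -(u 1 : ℝ) * t - u 0 * s = -((u 0 : ℝ) * s + (u 1 : ℝ) * t) := by ring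
        rw [g3, abs_neg]
        exact hu
    · exfalso
      rw [h11, Int.cast_zero, zero_mul, add_zero] at hu
      have h10 : u 0 ≠ 0 := by
        intro h10
        apply hu0
        funext i
        fin_cases i
        · exact h10
        · exact h11
      have g1 : (1 : ℝ) ≤ |(u 0 : ℝ)| := by exact_mod_cast Int.one_le_abs h10
      rw [abs_mul, abs_of_pos hs0] at hu
      nlinarith
    · rcases lt_trichotomy (u 0) 0 with h10 | h10 | h10
      · refine key (u 1).natAbs (u 0).natAbs (by omega) (by omega) (by omega) (by omega) ?_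
        have g1 : (((u 1).natAbs : ℕ) : ℝ) = (u 1 : ℝ) := by
          rw [Nat.cast_natAbs, Int.cast_abs, abs_of_pos (by exact_mod_cast h11)]
        have g2 : (((u 0).natAbs : ℕ) : ℝ) = -(u 0 : ℝ) := by
          rw [Nat.cast_natAbs, Int.cast_abs, abs_of_neg (by exact_mod_cast h10)]
        rw [g1, g2]
        have g3 : (u 1 : ℝ) * t - -(u 0 : ℝ) * s = (u 0 : ℝ) * s + (u 1 : ℝ) * t := by ring
        rw [g3]
        exact hu
      · exfalso
        have g2 : (1 : ℝ) ≤ ((u 1 : ℤ) : ℝ) := by exact_mod_cast h11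
        have g3 := abs_lt.1 hu
        rw [h10, Int.cast_zero, zero_mul, zero_add] at g3
        nlinarith [g3.2, mul_le_mul_of_nonneg_right g2 ht0.le]
      · exfalso
        have g1 : (1 : ℝ) ≤ ((u 0 : ℤ) : ℝ) := by exact_mod_cast h10
        have g2 : (1 : ℝ) ≤ ((u 1 : ℤ) : ℝ) := by exact_mod_cast h11
        have g3 := abs_lt.1 hu
        nlinarith [g3.2, mul_le_mul_of_nonneg_right g1 hs0.le, mul_le_mul_of_nonneg_right g2 ht0.le]

/-- **all pairs**, polynomials in `π`, `ζ(s)` and `ζ(t)` -/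
theorem pairs (d : ℕ) : ∃ B C : ℝ, 1 < B ∧ 1 < C ∧ ∃ n0 : ℕ, ∀ s t : ℕ, n0 ≤ s → s < t →
    ∀ P : MvPolynomial (Option (Fin 2)) ℤ, P ≠ 0 → P.totalDegree ≤ d →
    (∀ e, |((P.coeff e : ℤ) : ℝ)| ≤ C ^ s) →
    (B ^ t)⁻¹ < |MvPolynomial.aeval (pt ![s, t]) P| := by
  obtain ⟨B, C, hB, hC, n0, h⟩ := pairs_v _ (LM_pi d) d
  refine ⟨B, C, hB, hC, n0, fun s t hs hst P hP hPd hPC => ?_⟩
  rw [eval_ex hPd]
  exact h s t hs hst _ (coeff_ne hP hPd) (fun e j => hPC _)

end Pool.Agent.Helper90.ZP
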