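import Pool.Agent.Y760.PZ.Vec
import Pool.Agent.TH456.TM.Inst

/-!
# Polynomials in `π` and zeta values: from vectors of coefficients to polynomials
-/

set_option autoImplicit false

namespace Pool.Agent.Helper90.ZP

open Finset Pool.Agent.Y760.PZ

/-- the real zeta value as a sum -/
noncomputable def zt (s : ℕ) : ℝ := ∑' m : ℕ, 1 / ((m : ℝ) + 1) ^ s

/-- the point `(π, ζ(s_1), …, ζ(s_k))` -/
noncomputable def pt {k : ℕ} (s : Fin k → ℕ) : Option (Fin k) → ℝ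
  | none => Real.pi
  | some i => zt (s i)

/-- exponents -/
noncomputable def ex {k d : ℕ} (e : Fin k → Fin (d + 1)) (j : Fin (d + 1)) : Option (Fin k) →₀ ℕ :=
  Finsupp.equivFunOnFinite.symm fun
    | none => (j : ℕ)
    | some i => ((e i : Fin (d + 1)) : ℕ)

lemma ex_none {k d : ℕ} (e : Fin k → Fin (d + 1)) (j : Fin (d + 1)) : ex e j none = j := rfl

lemma ex_some {k d : ℕ} (e : Fin k → Fin (d + 1)) (j : Fin (d + 1)) (i : Fin k) :
    ex e j (some i) = e i := rfl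

lemma ex_surj {k d : ℕ} {P : MvPolynomial (Option (Fin k)) ℤ} (hP : P.totalDegree ≤ d)
    {m : Option (Fin k) →₀ ℕ} (hm : m ∈ P.support) : ∃ e j, ex (d := d) e j = m := by
  have h1 := MvPolynomial.le_totalDegree hm
  have h2 : ∀ i, m i < d + 1 := by
    intro i
    by_cases hi : i ∈ m.support
    · have h3 : m i ≤ m.sum fun _ e => e :=
        Finset.single_le_sum (f := fun i => m i) (fun _ _ => Nat.zero_le _) hi
      omega
    · rw [Finsupp.notMem_support_iff.1 hi]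
      omega
  refine ⟨fun i => ⟨m (some i), h2 _⟩, ⟨m none, h2 _⟩, ?_⟩
  ext i
  cases i <;> rfl

lemma ex_inj {k d : ℕ} {e e' : Fin k → Fin (d + 1)} {j j' : Fin (d + 1)}
    (h : ex e j = ex e' j') : e = e' ∧ j = j' := by
  constructor
  · funext i
    have := DFunLike.congr_fun h (some i)
    rw [ex_some, ex_some] at this
    exact Fin.ext this
  · have := DFunLike.congr_fun h none
    rw [ex_none, ex_none] at this
    exact Fin.ext this

lemma eval_ex {k d : ℕ} {P : MvPolynomial (Option (Fin k)) ℤ} (hP : P.totalDegree ≤ d)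
    (s : Fin k → ℕ) :
    MvPolynomial.aeval (pt s) P =
      ∑ e : Fin k → Fin (d + 1), (∑ j : Fin (d + 1), ((P.coeff (ex e j) : ℤ) : ℝ) *
        Real.pi ^ (j : ℕ)) * ∏ i, (zt (s i)) ^ ((e i : Fin (d + 1)) : ℕ) := by
  classical
  rw [MvPolynomial.aeval_def, MvPolynomial.eval₂_eq']
  have h5 : ∑ e : Fin k → Fin (d + 1), (∑ j : Fin (d + 1), ((P.coeff (ex e j) : ℤ) : ℝ) *
        Real.pi ^ (j : ℕ)) * ∏ i, (zt (s i)) ^ ((e i : Fin (d + 1)) : ℕ) =
      ∑ m ∈ (univ : Finset ((Fin k → Fin (d + 1)) × Fin (d + 1))).image (fun x => ex x.1 x.2),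
        ((P.coeff m : ℤ) : ℝ) * ∏ i, pt s i ^ (m i) := by
    rw [sum_image (fun x _ y _ hxy => Prod.ext (ex_inj hxy).1 (ex_inj hxy).2),
      Fintype.sum_prod_type]
    refine sum_congr rfl fun e _ => ?_
    rw [sum_mul]
    refine sum_congr rfl fun j _ => ?_
    rw [Fintype.prod_option]
    simp only [ex_none, ex_some, pt]
    ring
  rw [h5]
  refine sum_subset ?_ ?_
  · intro m hm
    obtain ⟨e, j, he⟩ := ex_surj hP hm
    exact mem_image.2 ⟨(e, j), mem_univ _, he⟩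
  · intro m _ hm
    rw [MvPolynomial.notMem_support_iff.1 hm]
    simp

lemma LM_pi (D : ℕ) : LM fun i : Fin (D + 1) => Real.pi ^ (i : ℕ) :=
  LM_pow Pool.Agent.TH456.TM.measT_pi D

/-- **arguments in short windows**, two-sided windows, coefficients in the span of `θ` -/
theorem windows_v {ι : Type} [Fintype ι] (θ : ι → ℝ) (hθ : LM θ) (k d : ℕ) (r : Fin k → ℕ)
    (hr : ∀ i, 1 ≤ r i) :
    ∃ ε B C : ℝ, 0 < ε ∧ 1 < B ∧ 1 < C ∧ ∃ n0 : ℕ, ∀ n : ℕ, n0 ≤ n → ∀ s : Fin k → ℕ,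
      Function.Injective s → (∀ i, |(s i : ℝ) - r i * n| ≤ ε * n) →
      ∀ a : (Fin k → Fin (d + 1)) → ι → ℤ, a ≠ 0 → (∀ e j, |(a e j : ℝ)| ≤ C ^ n) →
      (B ^ n)⁻¹ < |∑ e : Fin k → Fin (d + 1), (∑ j, (a e j : ℝ) * θ j) *
        ∏ i, (zt (s i)) ^ ((e i : Fin (d + 1)) : ℕ)| := by
  obtain ⟨ε, B, C, hε, hB, hC, n0, h⟩ := zeta_v (I := Fin k) θ hθ r hr d
  obtain ⟨R, hR⟩ : ∃ R : ℕ, ∀ i, r i ≤ R := ⟨∑ i, r i, fun i =>
    Finset.single_le_sum (f := r) (fun _ _ => Nat.zero_le _) (Finset.mem_univ i)⟩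
  set e : ℝ := min (ε / (4 * (R + 1))) (1 / 4) with he
  have hR0 : (0 : ℝ) ≤ R := Nat.cast_nonneg _
  have he0 : 0 < e := by rw [he]; positivity
  have he1 : e ≤ 1 / 4 := min_le_right _ _
  have he2 : (R + 1) * e ≤ ε / 4 := by
    have h1 : e ≤ ε / (4 * (R + 1)) := min_le_left _ _
    rw [le_div_iff₀ (by positivity)] at h1
    linarith
  set m0 : ℕ := 2 * n0 + 8 + ⌈8 * (R + 1) / ε⌉₊ with hm0
  refine ⟨e, B, √C, he0, hB, by
    rw [Real.lt_sqrt (by norm_num), one_pow]; exact hC, m0, fun n hn s hs hsr a ha haC => ?_⟩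
  have hn1 : (2 * n0 + 8 : ℝ) ≤ n := by
    have h1 : 2 * n0 + 8 ≤ n := by omega
    exact_mod_cast h1
  have hn2 : 8 * (R + 1) / ε ≤ n := by
    have h1 : 8 * ((R : ℝ) + 1) / ε ≤ ⌈8 * ((R : ℝ) + 1) / ε⌉₊ := Nat.le_ceil _
    have h2 : ((⌈8 * ((R : ℝ) + 1) / ε⌉₊ : ℕ) : ℝ) ≤ n := by
      have h3 : ⌈8 * ((R : ℝ) + 1) / ε⌉₊ ≤ n := by omega
      exact_mod_cast h3
    linarith
  have hn3 : 8 * (R + 1) ≤ ε * n := by
    rw [div_le_iff₀ hε] at hn2
    linarith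
  have hnn : (0 : ℝ) ≤ n := Nat.cast_nonneg _
  set u : ℕ := ⌈e * n⌉₊ with hu
  have hu1 : e * n ≤ u := Nat.le_ceil _
  have hu2 : (u : ℝ) < e * n + 1 := Nat.ceil_lt_add_one (by positivity)
  have hen : e * n ≤ 1 / 4 * n := mul_le_mul_of_nonneg_right he1 hnn
  have hun : (u : ℝ) ≤ n := by linarith
  have hun' : u ≤ n := by exact_mod_cast hun
  set n' : ℕ := n - u with hn'
  have hn'R : (n' : ℝ) = n - u := by rw [hn', Nat.cast_sub hun']
  have hhalf : (n : ℝ) / 2 ≤ n' := by rw [hn'R]; linarith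
  have hn'0 : n0 ≤ n' := by
    have h1 : (n0 : ℝ) ≤ n' := by linarith
    exact_mod_cast h1
  have hle : n' ≤ n := by omega
  have h1 := h n' hn'0 s hs (fun i => by
    have hi := abs_le.1 (hsr i)
    have hri1 : (1 : ℝ) ≤ r i := by exact_mod_cast hr i
    have hriR : (r i : ℝ) ≤ R := by exact_mod_cast hR i
    constructor
    · have h2 : (r i : ℝ) * n' ≤ s i := by
        rw [hn'R]
        nlinarith [hi.1, hi.2]
      exact_mod_cast h2
    · have h3 : (s i : ℝ) ≤ r i * n' + (r i * u + e * n) := by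
        rw [hn'R]
        linarith [hi.2]
      have h4 : (r i : ℝ) * u ≤ R * (e * n + 1) :=
        mul_le_mul hriR hu2.le (Nat.cast_nonneg _) hR0
      have h5 : R * (e * n + 1) + e * n = (R + 1) * e * n + R := by ring
      have h6 : (R + 1) * e * n ≤ ε / 4 * n := mul_le_mul_of_nonneg_right he2 hnn
      have h7 : ε * (n / 2) ≤ ε * n' := mul_le_mul_of_nonneg_left hhalf hε.le
      nlinarith) a ha (fun x j => (haC x j).trans (by
        have h8 : √C ^ n ≤ √C ^ (2 * n') := pow_le_pow_right₀ (by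
          rw [Real.one_le_sqrt]; exact hC.le) (by
            have h9 : (n : ℝ) ≤ 2 * n' := by linarith
            exact_mod_cast h9)
        rwa [pow_mul, Real.sq_sqrt (by linarith)] at h8))
  refine lt_of_le_of_lt ?_ h1
  gcongr
  exact hB.le

lemma coeff_ne {k d : ℕ} {P : MvPolynomial (Option (Fin k)) ℤ} (hP : P ≠ 0)
    (hPd : P.totalDegree ≤ d) :
    (fun (e : Fin k → Fin (d + 1)) (j : Fin (d + 1)) => P.coeff (ex e j)) ≠ 0 := by
  intro h0
  apply hP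
  ext m
  rw [MvPolynomial.coeff_zero]
  by_contra hm
  obtain ⟨e, j, he⟩ := ex_surj hPd (MvPolynomial.mem_support_iff.2 hm)
  exact hm (by rw [← he]; exact congrFun (congrFun h0 e) j)

/-- **arguments in short windows**, polynomials in `π` and zeta values -/
theorem windows (k d : ℕ) (r : Fin k → ℕ) (hr : ∀ i, 1 ≤ r i) :
    ∃ ε B C : ℝ, 0 < ε ∧ 1 < B ∧ 1 < C ∧ ∃ n0 : ℕ, ∀ n : ℕ, n0 ≤ n → ∀ s : Fin k → ℕ,
      Function.Injective s → (∀ i, |(s i : ℝ) - r i * n| ≤ ε * n) →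
      ∀ P : MvPolynomial (Option (Fin k)) ℤ, P ≠ 0 → P.totalDegree ≤ d →
      (∀ e, |((P.coeff e : ℤ) : ℝ)| ≤ C ^ n) →
      (B ^ n)⁻¹ < |MvPolynomial.aeval (pt s) P| := by
  obtain ⟨ε, B, C, hε, hB, hC, n0, h⟩ := windows_v _ (LM_pi d) k d r hr
  refine ⟨ε, B, C, hε, hB, hC, n0, fun n hn s hs hsr P hP hPd hPC => ?_⟩
  rw [eval_ex hPd]
  exact h n hn s hs hsr _ (coeff_ne hP hPd) (fun e j => hPC _)

end Pool.Agent.Helper90.ZP
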