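import Pool.Agent.Helper90.ZP.Almost
import Pool.Agent.Helper90.ZP.Pairs
import Pool.Agent.TH647.NR.Zeta

/-!
# Combinations of `1, π ^ 2, ζ(3)` with coefficients polynomials in zeta values
-/

set_option autoImplicit false

namespace Pool.Agent.Helper90.ZP

open Finset Pool.Agent.Y760.PZ

/-- exponents -/
noncomputable def fx {k d : ℕ} (e : Fin k → Fin (d + 1)) : Fin k →₀ ℕ :=
  Finsupp.equivFunOnFinite.symm fun i => ((e i : Fin (d + 1)) : ℕ)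

lemma fx_apply {k d : ℕ} (e : Fin k → Fin (d + 1)) (i : Fin k) : fx e i = e i := rfl

lemma fx_surj {k d : ℕ} {P : MvPolynomial (Fin k) ℤ} (hP : P.totalDegree ≤ d)
    {m : Fin k →₀ ℕ} (hm : m ∈ P.support) : ∃ e, fx (d := d) e = m := by
  have h1 := MvPolynomial.le_totalDegree hm
  have h2 : ∀ i, m i < d + 1 := by
    intro i
    by_cases hi : i ∈ m.support
    · have h3 : m i ≤ m.sum fun _ e => e :=
        Finset.single_le_sum (f := fun i => m i) (fun _ _ => Nat.zero_le _) hi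
      omega
    · rw [Finsupp.notMem_support_iff.1 hi]
      omega
  refine ⟨fun i => ⟨m i, h2 _⟩, ?_⟩
  ext i
  rfl

lemma fx_inj {k d : ℕ} {e e' : Fin k → Fin (d + 1)} (h : fx e = fx e') : e = e' := by
  funext i
  have := DFunLike.congr_fun h i
  rw [fx_apply, fx_apply] at this
  exact Fin.ext this

lemma eval_fx {k d : ℕ} {P : MvPolynomial (Fin k) ℤ} (hP : P.totalDegree ≤ d) (s : Fin k → ℕ) :
    MvPolynomial.aeval (fun i => zt (s i)) P =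
      ∑ e : Fin k → Fin (d + 1), ((P.coeff (fx e) : ℤ) : ℝ) *
        ∏ i, (zt (s i)) ^ ((e i : Fin (d + 1)) : ℕ) := by
  classical
  rw [MvPolynomial.aeval_def, MvPolynomial.eval₂_eq']
  have h5 : ∑ e : Fin k → Fin (d + 1), ((P.coeff (fx e) : ℤ) : ℝ) *
        ∏ i, (zt (s i)) ^ ((e i : Fin (d + 1)) : ℕ) =
      ∑ m ∈ (univ : Finset (Fin k → Fin (d + 1))).image fx,
        ((P.coeff m : ℤ) : ℝ) * ∏ i, zt (s i) ^ (m i) := by
    rw [sum_image (fun x _ y _ hxy => fx_inj hxy)]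
    rfl
  rw [h5]
  refine sum_subset ?_ ?_
  · intro m hm
    obtain ⟨e, he⟩ := fx_surj hP hm
    exact mem_image.2 ⟨e, mem_univ _, he⟩
  · intro m _ hm
    rw [MvPolynomial.notMem_support_iff.1 hm]
    simp

lemma eval_fam {k d : ℕ} {ι : Type} [Fintype ι] (θ : ι → ℝ) {P : ι → MvPolynomial (Fin k) ℤ}
    (hP : ∀ j, (P j).totalDegree ≤ d) (s : Fin k → ℕ) :
    ∑ j, θ j * MvPolynomial.aeval (fun i => zt (s i)) (P j) =
      ∑ e : Fin k → Fin (d + 1), (∑ j, (((P j).coeff (fx e) : ℤ) : ℝ) * θ j) *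
        ∏ i, (zt (s i)) ^ ((e i : Fin (d + 1)) : ℕ) := by
  rw [sum_congr rfl fun j _ => by rw [eval_fx (hP j) s, mul_sum], sum_comm]
  refine sum_congr rfl fun e _ => ?_
  rw [sum_mul]
  exact sum_congr rfl fun j _ => by ring

lemma fam_ne {k d : ℕ} {ι : Type} {P : ι → MvPolynomial (Fin k) ℤ} (hP0 : P ≠ 0)
    (hP : ∀ j, (P j).totalDegree ≤ d) :
    (fun (e : Fin k → Fin (d + 1)) (j : ι) => (P j).coeff (fx e)) ≠ 0 := by
  intro h0
  apply hP0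
  funext j
  ext m
  rw [Pi.zero_apply, MvPolynomial.coeff_zero]
  by_contra hm
  obtain ⟨e, he⟩ := fx_surj (hP j) (MvPolynomial.mem_support_iff.2 hm)
  exact hm (by rw [← he]; exact congrFun (congrFun h0 e) j)

/-- the vector `(1, π ^ 2, ζ(3))` -/
noncomputable def th3 : Fin 3 → ℝ := ![1, Real.pi ^ 2, zt 3]

lemma LM_three : LM th3 := by
  obtain ⟨κ, hκ, c, hc, h⟩ := Pool.Agent.TH647.NR.meas_pi_zeta
  refine ⟨κ, c, hκ.le, hc, fun q hq H hH hqH => ?_⟩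
  have h1 := h q hq H hH hqH
  exact h1

/-- **all pairs** -/
theorem pairs3 (d : ℕ) : ∃ B C : ℝ, 1 < B ∧ 1 < C ∧ ∃ n0 : ℕ, ∀ s t : ℕ, n0 ≤ s → s < t →
    ∀ P : Fin 3 → MvPolynomial (Fin 2) ℤ, P ≠ 0 → (∀ j, (P j).totalDegree ≤ d) →
    (∀ j e, |(((P j).coeff e : ℤ) : ℝ)| ≤ C ^ s) →
    (B ^ t)⁻¹ < |∑ j, th3 j * MvPolynomial.aeval (fun i => zt (![s, t] i)) (P j)| := by
  obtain ⟨B, C, hB, hC, n0, h⟩ := pairs_v _ LM_three d
  refine ⟨B, C, hB, hC, n0, fun s t hs hst P hP hPd hPC => ?_⟩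
  rw [eval_fam _ hPd]
  exact h s t hs hst _ (fam_ne hP hPd) (fun e j => hPC _ _)

/-- **almost all tuples** -/
theorem almost3 (k d : ℕ) : ∃ A : ℝ, 0 < A ∧ ∀ (N : ℕ) (h : ℝ), 1 ≤ h →
    (Set.ncard {s : Fin k → ℕ | (∀ i, 2 ≤ s i ∧ s i ≤ N) ∧
      ∃ P : Fin 3 → MvPolynomial (Fin k) ℤ, P ≠ 0 ∧ (∀ j, (P j).totalDegree ≤ d) ∧
        (∀ j e, |(((P j).coeff e : ℤ) : ℝ)| ≤ Real.exp h) ∧
        |∑ j, th3 j * MvPolynomial.aeval (fun i => zt (s i)) (P j)| ≤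
          Real.exp (-(A * (h + ∑ i, (s i : ℝ))))} : ℝ) ≤
      A * h * (N : ℝ) ^ (k - 1) := by
  obtain ⟨A, hA, h0⟩ := almost_v _ LM_three k d
  refine ⟨A, hA, fun N h hh => le_trans ?_ (h0 N h hh)⟩
  have hfin : Set.Finite {s : Fin k → ℕ | (∀ i, 2 ≤ s i ∧ s i ≤ N) ∧
        ∃ a : (Fin k → Fin (d + 1)) → Fin 3 → ℤ, a ≠ 0 ∧
          (∀ e j, |(a e j : ℝ)| ≤ Real.exp h) ∧
          |∑ e : Fin k → Fin (d + 1), (∑ j, (a e j : ℝ) * th3 j) *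
            ∏ i, (zt (s i)) ^ ((e i : Fin (d + 1)) : ℕ)| ≤
          Real.exp (-(A * (h + ∑ i, (s i : ℝ))))} := by
    refine Set.Finite.subset (Finset.finite_toSet (box k N)) fun s hs => ?_
    rw [mem_coe, box, Fintype.mem_piFinset]
    exact fun i => by rw [mem_Icc]; exact hs.1 i
  have h1 := Set.ncard_le_ncard (s := {s : Fin k → ℕ | (∀ i, 2 ≤ s i ∧ s i ≤ N) ∧
      ∃ P : Fin 3 → MvPolynomial (Fin k) ℤ, P ≠ 0 ∧ (∀ j, (P j).totalDegree ≤ d) ∧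
        (∀ j e, |(((P j).coeff e : ℤ) : ℝ)| ≤ Real.exp h) ∧
        |∑ j, th3 j * MvPolynomial.aeval (fun i => zt (s i)) (P j)| ≤
          Real.exp (-(A * (h + ∑ i, (s i : ℝ))))}) (by
    rintro s ⟨hs, P, hP, hPd, hPC, hsmall⟩
    refine ⟨hs, _, fam_ne hP hPd, fun e j => hPC _ _, ?_⟩
    rwa [← eval_fam _ hPd]) hfin
  exact_mod_cast h1

end Pool.Agent.Helper90.ZP
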